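import Mathlib

/-! Definitions used in the statement for problem MP_b9b9f8_al. -/

namespace Pool.Agent.Lib.MP_b9b9f8_al

open CategoryTheory

/-- `mu R M` is the minimal number of generators of the `R`-module `M`
(it is `⊤` if `M` is not finitely generated). -/
noncomputable def mu (R : Type) [CommRing R] (M : Type) [AddCommGroup M] [Module R M] : ℕ∞ :=
  ⨅ (s : Finset M) (_ : Submodule.span R (s : Set M) = ⊤), (s.card : ℕ∞)

/-- The complexity of a sequence `x`: the least integer `d ≥ 0` such that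
`x n ≤ a * n ^ (d - 1)` for some real `a > 0` and all large `n`, and `⊤` if there is none. -/
noncomputable def growth (x : ℕ → ℕ∞) : ℕ∞ :=
  ⨅ (d : ℕ) (_ : ∃ a : ℝ, 0 < a ∧ ∀ᶠ n : ℕ in Filter.atTop,
    ∃ m : ℕ, x n = m ∧ (m : ℝ) ≤ a * (n : ℝ) ^ ((d : ℤ) - 1)), (d : ℕ∞)

/-- `tor R M N n` is the module `Tor_n^R(M, N)`. -/
noncomputable def tor (R : Type) [CommRing R] (M N : ModuleCat.{0} R) (n : ℕ) : ModuleCat.{0} R :=
  ((Tor (ModuleCat.{0} R) n).obj M).obj N

/-- The Tor complexity `tcx_R(M, N)`. -/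
noncomputable def tcx (R : Type) [CommRing R] (M N : ModuleCat.{0} R) : ℕ∞ :=
  growth fun n => mu R (tor R M N n)

/-- The Betti number `β_n^R(k) = μ(Tor_n^R(k, k))` of the residue field. -/
noncomputable def bettiResidue (R : Type) [CommRing R] [IsLocalRing R] (n : ℕ) : ℕ∞ :=
  mu R (tor R (ModuleCat.of R (IsLocalRing.ResidueField R))
    (ModuleCat.of R (IsLocalRing.ResidueField R)) n)

/-- The complexity `cx_R(k)` of the residue field. -/
noncomputable def cxResidue (R : Type) [CommRing R] [IsLocalRing R] : ℕ∞ :=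
  growth (bettiResidue R)

/-- Burch ideals: `m (I : m) ≠ m I`. -/
def IsBurch {R : Type} [CommRing R] [IsLocalRing R] (I : Ideal R) : Prop :=
  IsLocalRing.maximalIdeal R * I.colon (IsLocalRing.maximalIdeal R : Set R) ≠
    IsLocalRing.maximalIdeal R * I

end Pool.Agent.Lib.MP_b9b9f8_al
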