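import Mathlib
import Pool.Agent.Lib.MP_b9b9f8_al.Defs

/-! Explicit projective resolutions and the computation of `Tor` from them. -/

namespace Pool.Agent.Lib.MP_b9b9f8_al

open CategoryTheory TensorProduct

/-- An explicit projective resolution of a module. -/
structure Res (R : Type) [CommRing R] (M : Type) [AddCommGroup M] [Module R M] where
  X : ℕ → ModuleCat.{0} R
  d : ∀ n, X (n + 1) →ₗ[R] X n
  ε : X 0 →ₗ[R] M
  proj : ∀ n, Module.Projective R (X n)
  surj : Function.Surjective ε
  exact0 : Function.Exact (d 0) ε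
  exact : ∀ n, Function.Exact (d (n + 1)) (d n)

variable {R : Type} [CommRing R] {M : Type} [AddCommGroup M] [Module R M]

namespace Res

/-- The chain complex of a resolution. -/
noncomputable def cplx (F : Res R M) : ChainComplex (ModuleCat.{0} R) ℕ :=
  ChainComplex.of F.X (fun n => ModuleCat.ofHom (F.d n)) (fun n => by
    ext x
    exact (F.exact n).apply_apply_eq_zero x)

lemma cplx_d (F : Res R M) (n : ℕ) : F.cplx.d (n + 1) n = ModuleCat.ofHom (F.d n) :=
  ChainComplex.of_d F.X (fun n => ModuleCat.ofHom (F.d n)) n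

/-- The augmentation. -/
noncomputable def aug (F : Res R M) :
    F.cplx ⟶ (ChainComplex.single₀ (ModuleCat.{0} R)).obj (ModuleCat.of R M) :=
  (ChainComplex.toSingle₀Equiv _ _).symm ⟨ModuleCat.ofHom F.ε, by
    rw [show F.cplx.d 1 0 = ModuleCat.ofHom (F.d 0) from F.cplx_d 0]
    ext x
    exact F.exact0.apply_apply_eq_zero x⟩

set_option backward.isDefEq.respectTransparency false in
lemma aug_quasiIso (F : Res R M) : QuasiIso F.aug where
  quasiIsoAt m := by
    induction m with
    | zero =>
      rw [ChainComplex.quasiIsoAt₀_iff, ShortComplex.quasiIso_iff_of_zeros' _ rfl rfl rfl]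
      have h0 : F.aug.f 0 = ModuleCat.ofHom F.ε := ChainComplex.toSingle₀Equiv_symm_apply_f_zero _ _
      constructor
      · rw [ShortComplex.moduleCat_exact_iff]
        intro x hx
        have hx' : F.ε x = 0 := by
          have : (F.aug.f 0) x = 0 := hx
          rw [h0] at this
          exact this
        obtain ⟨y, hy⟩ := (F.exact0 x).1 hx'
        refine ⟨y, ?_⟩
        change (F.cplx.d 1 0) y = x
        rw [show F.cplx.d 1 0 = ModuleCat.ofHom (F.d 0) from F.cplx_d 0]
        exact hy
      · change Epi (F.aug.f 0)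
        rw [h0, ModuleCat.epi_iff_surjective]
        exact F.surj
    | succ m _ =>
      rw [quasiIsoAt_iff_exactAt' (hL := ChainComplex.exactAt_succ_single_obj ..),
          HomologicalComplex.exactAt_iff' _ (m + 2) (m + 1) m (by simp) (by simp),
          ShortComplex.moduleCat_exact_iff]
      intro x hx
      have hx' : F.d m x = 0 := by
        have : (F.cplx.d (m + 1) m) x = 0 := hx
        rw [F.cplx_d m] at this
        exact this
      obtain ⟨y, hy⟩ := (F.exact m x).1 hx'
      refine ⟨y, ?_⟩
      change (F.cplx.d (m + 1 + 1) (m + 1)) y = x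
      rw [F.cplx_d (m + 1)]
      exact hy

/-- The Mathlib projective resolution attached to a resolution. -/
noncomputable def toPR (F : Res R M) : ProjectiveResolution (ModuleCat.of R M) where
  complex := F.cplx
  projective n := by
    have := F.proj n
    exact inferInstanceAs (Projective (F.X n))
  π := F.aug
  quasiIso := F.aug_quasiIso

set_option backward.isDefEq.respectTransparency false in
theorem tor_surj (F : Res R M) (N : Type) [AddCommGroup N] [Module R N] (n : ℕ) :
    ∃ π : LinearMap.ker ((F.d n).lTensor N) →ₗ[R]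
        tor R (ModuleCat.of R N) (ModuleCat.of R M) (n + 1),
      Function.Surjective π ∧
        ∀ z, π z = 0 ↔ z.1 ∈ LinearMap.range ((F.d (n + 1)).lTensor N) := by
  let T := (MonoidalCategory.tensoringLeft (ModuleCat.{0} R)).obj (ModuleCat.of R N)
  let K := (T.mapHomologicalComplex (ComplexShape.down ℕ)).obj F.cplx
  let S := K.sc' (n + 2) (n + 1) n
  let e : tor R (ModuleCat.of R N) (ModuleCat.of R M) (n + 1) ≅ S.moduleCatLeftHomologyData.H :=
    F.toPR.isoLeftDerivedObj T (n + 1) ≪≫
      K.homologyIsoSc' (n + 2) (n + 1) n (by simp) (by simp) ≪≫ S.moduleCatHomologyIso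
  have hg : S.g.hom = (F.d n).lTensor N := by
    change (T.map (F.cplx.d (n + 1) n)).hom = _
    rw [F.cplx_d n]
    rfl
  have hf : S.f.hom = (F.d (n + 1)).lTensor N := by
    change (T.map (F.cplx.d (n + 1 + 1) (n + 1))).hom = _
    rw [F.cplx_d (n + 1)]
    rfl
  have hker : LinearMap.ker ((F.d n).lTensor N) = LinearMap.ker S.g.hom := by rw [hg]
  let ι : LinearMap.ker ((F.d n).lTensor N) ≃ₗ[R] LinearMap.ker S.g.hom :=
    LinearEquiv.ofEq _ _ hker
  refine ⟨e.inv.hom ∘ₗ (LinearMap.range S.moduleCatToCycles).mkQ ∘ₗ ι.toLinearMap, ?_, ?_⟩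
  · simp only [LinearMap.coe_comp]
    refine Function.Surjective.comp ?_ (Function.Surjective.comp ?_ ι.surjective)
    · exact (ModuleCat.epi_iff_surjective e.inv).1 inferInstance
    · exact Submodule.mkQ_surjective _
  · intro z
    have hinj : Function.Injective e.inv.hom := (ModuleCat.mono_iff_injective e.inv).1 inferInstance
    simp only [LinearMap.comp_apply]
    rw [← map_zero e.inv.hom, hinj.eq_iff]
    change (LinearMap.range S.moduleCatToCycles).mkQ (ι z) = 0 ↔ _
    rw [Submodule.mkQ_apply, Submodule.Quotient.mk_eq_zero, ← hf]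
    constructor
    · rintro ⟨y, hy⟩
      exact ⟨y, congrArg Subtype.val hy⟩
    · rintro ⟨y, hy⟩
      exact ⟨y, Subtype.ext hy⟩

end Res

set_option backward.isDefEq.respectTransparency false in
/-- `Tor_n(N, -)` sends multiplication by `a` to multiplication by `a`. -/
theorem tor_map_smul (N X : ModuleCat.{0} R) (n : ℕ) (a : R) :
    ((Tor (ModuleCat.{0} R) n).obj N).map (a • 𝟙 X) = a • 𝟙 _ := by
  let T := (MonoidalCategory.tensoringLeft (ModuleCat.{0} R)).obj N
  let P : ProjectiveResolution X := projectiveResolution X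
  change (T.leftDerived n).map (a • 𝟙 X) = a • 𝟙 ((T.leftDerived n).obj X)
  rw [Functor.leftDerived_map_eq T n (a • 𝟙 X) (P := P) (Q := P) (a • 𝟙 _) (by
    apply HomologicalComplex.to_single_hom_ext
    simp)]
  have h1 : (T.mapHomologicalComplex (ComplexShape.down ℕ) ⋙
      HomologicalComplex.homologyFunctor _ _ n).map (a • 𝟙 P.complex) = a • 𝟙 _ := by
    rw [Functor.comp_map]
    have h2 : (T.mapHomologicalComplex (ComplexShape.down ℕ)).map (a • 𝟙 P.complex) =
        a • 𝟙 _ := by
      ext i : 1
      simp [T]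
    rw [h2]
    change ShortComplex.homologyMap
      ((HomologicalComplex.shortComplexFunctor _ _ n).map (a • 𝟙 _)) = _
    have h3 : (HomologicalComplex.shortComplexFunctor (ModuleCat.{0} R) (ComplexShape.down ℕ) n).map
        (a • 𝟙 ((T.mapHomologicalComplex (ComplexShape.down ℕ)).obj P.complex)) = a • 𝟙 _ := by
      rfl
    rw [h3, ShortComplex.homologyMap_smul, ShortComplex.homologyMap_id]
    rfl
  rw [h1]
  simp

end Pool.Agent.Lib.MP_b9b9f8_al
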