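import Mathlib
import Pool.Agent.Lib.MP_b9b9f8_al.Bridge

/-! Counting generators, the mapping cone of a regular element, and an upper bound for the
Betti numbers of the residue field. -/

namespace Pool.Agent.Lib.MP_b9b9f8_al

open CategoryTheory TensorProduct

/-- `M` is generated by at most `r` elements. -/
def Gen (R : Type) [CommRing R] (M : Type) [AddCommGroup M] [Module R M] (r : ℕ) : Prop :=
  ∃ s : Finset M, s.card ≤ r ∧ Submodule.span R (s : Set M) = ⊤

variable {R : Type} [CommRing R] {M : Type} [AddCommGroup M] [Module R M]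
  {N : Type} [AddCommGroup N] [Module R N]

lemma Gen.mono {r r' : ℕ} (h : Gen R M r) (hr : r ≤ r') : Gen R M r' := by
  obtain ⟨s, hs, hs'⟩ := h
  exact ⟨s, hs.trans hr, hs'⟩

lemma gen_of_family {ι : Type} [Fintype ι] (f : ι → M)
    (h : Submodule.span R (Set.range f) = ⊤) : Gen R M (Fintype.card ι) := by
  classical
  refine ⟨Finset.univ.image f, Finset.card_image_le.trans (by simp), ?_⟩
  simpa using h

lemma Gen.of_surj {r : ℕ} (h : Gen R M r) (f : M →ₗ[R] N) (hf : Function.Surjective f) :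
    Gen R N r := by
  classical
  obtain ⟨s, hs, hs'⟩ := h
  refine ⟨s.image f, Finset.card_image_le.trans hs, ?_⟩
  rw [Finset.coe_image, ← Submodule.map_span, hs', Submodule.map_top,
    LinearMap.range_eq_top.2 hf]

lemma Gen.prod {r r' : ℕ} (h : Gen R M r) (h' : Gen R N r') : Gen R (M × N) (r + r') := by
  classical
  obtain ⟨s, hs, hs'⟩ := h
  obtain ⟨t, ht, ht'⟩ := h'
  refine ⟨s.image (LinearMap.inl R M N) ∪ t.image (LinearMap.inr R M N), ?_, ?_⟩
  · exact (Finset.card_union_le _ _).trans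
      (add_le_add (Finset.card_image_le.trans hs) (Finset.card_image_le.trans ht))
  · rw [Finset.coe_union, Submodule.span_union, Finset.coe_image, Finset.coe_image,
      ← Submodule.map_span, ← Submodule.map_span, hs', ht', Submodule.map_top, Submodule.map_top,
      LinearMap.sup_range_inl_inr]

lemma mu_le_of_gen {r : ℕ} (h : Gen R M r) : ∃ m : ℕ, mu R M = m ∧ m ≤ r := by
  obtain ⟨s, hs, hs'⟩ := h
  have h1 : mu R M ≤ (r : ℕ∞) := by
    refine le_trans (iInf₂_le s hs') ?_
    exact_mod_cast hs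
  have h2 : mu R M ≠ ⊤ := ne_top_of_le_ne_top (ENat.natCast_ne_top r) h1
  obtain ⟨m, hm⟩ := ENat.ne_top_iff_exists.1 h2
  refine ⟨m, hm.symm, ?_⟩
  rw [← hm] at h1
  exact_mod_cast h1

lemma gen_of_mu_eq {m : ℕ} (h : mu R M = m) : Gen R M m := by
  by_contra hcon
  have h1 : ((m + 1 : ℕ) : ℕ∞) ≤ mu R M := by
    refine le_iInf₂ fun s hs => ?_
    have : ¬ s.card ≤ m := fun hle => hcon ⟨s, hle, hs⟩
    exact_mod_cast (by omega : m + 1 ≤ s.card)
  rw [h] at h1
  have : m + 1 ≤ m := by exact_mod_cast h1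
  omega

namespace Res

/-- The shifted family used in the mapping cone. -/
noncomputable def sh (F : Res R M) : ℕ → ModuleCat.{0} R
  | 0 => ModuleCat.of R PUnit
  | n + 1 => F.X n

/-- The differential of the shifted family. -/
noncomputable def shd (F : Res R M) : ∀ n, F.X n →ₗ[R] F.sh n
  | 0 => 0
  | n + 1 => F.d n

/-- The differential of the mapping cone of multiplication by `y`. -/
noncomputable def coneD (F : Res R M) (y : R) (n : ℕ) :
    (F.X (n + 1) × F.X n) →ₗ[R] (F.X n × F.sh n) :=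
  LinearMap.prod (F.d n ∘ₗ LinearMap.fst R _ _ + y • LinearMap.snd R _ _)
    (-(F.shd n ∘ₗ LinearMap.snd R _ _))

lemma coneD_apply (F : Res R M) (y : R) (n : ℕ) (u : F.X (n + 1)) (v : F.X n) :
    F.coneD y n (u, v) = (F.d n u + y • v, -F.shd n v) := rfl

lemma shd_d (F : Res R M) (n : ℕ) (u : F.X (n + 1)) : F.shd n (F.d n u) = 0 := by
  cases n with
  | zero => rfl
  | succ n => exact (F.exact n).apply_apply_eq_zero u

lemma cone_exact0 (F : Res R M) (y : R)
    (π : M →ₗ[R] N) (hker : ∀ m, π m = 0 ↔ ∃ m', m = y • m') (u : F.X 0) :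
    π (F.ε u) = 0 ↔ ∃ (u' : F.X (0 + 1)) (v : F.X 0), F.d 0 u' + y • v = u := by
  constructor
  · intro h
    obtain ⟨m', hm'⟩ := (hker (F.ε u)).1 h
    obtain ⟨v, rfl⟩ := F.surj m'
    obtain ⟨u', hu'⟩ := (F.exact0 (u - y • v)).1 (by rw [map_sub, map_smul, hm', sub_self])
    exact ⟨u', v, by rw [hu']; simp⟩
  · rintro ⟨u', v, rfl⟩
    rw [hker]
    refine ⟨F.ε v, ?_⟩
    rw [map_add, F.exact0.apply_apply_eq_zero, map_smul, zero_add]

lemma cone_exact (F : Res R M) (y : R) (hy : ∀ m : M, y • m = 0 → m = 0) (n : ℕ)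
    (u : F.X (n + 1)) (v : F.X n) :
    F.coneD y n (u, v) = 0 ↔ ∃ (u' : F.X (n + 1 + 1)) (v' : F.X (n + 1)),
      F.d (n + 1) u' + y • v' = u ∧ -F.d n v' = v := by
  constructor
  · intro h
    rw [coneD_apply] at h
    have h1 : F.d n u + y • v = 0 := congrArg Prod.fst h
    have h2 : F.shd n v = 0 := neg_eq_zero.1 (congrArg Prod.snd h)
    have h3 : ∃ v', F.d n v' = v := by
      cases n with
      | zero =>
        apply (F.exact0 v).1
        apply hy
        have := congrArg F.ε h1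
        rwa [map_add, F.exact0.apply_apply_eq_zero, map_smul, zero_add, map_zero] at this
      | succ n => exact (F.exact n v).1 h2
    obtain ⟨v', rfl⟩ := h3
    obtain ⟨u', hu'⟩ := (F.exact n (u + y • v')).1 (by rw [map_add, map_smul, h1])
    exact ⟨u', -v', by rw [hu']; simp, by simp⟩
  · rintro ⟨u', v', rfl, rfl⟩
    rw [coneD_apply]
    refine Prod.ext ?_ ?_
    · simp [(F.exact n).apply_apply_eq_zero]
    · simp [shd_d]

/-- The mapping cone of multiplication by a regular element `y` resolves `M / y M`. -/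
noncomputable def cone (F : Res R M) (y : R) (hy : ∀ m : M, y • m = 0 → m = 0)
    (π : M →ₗ[R] N) (hπ : Function.Surjective π) (hker : ∀ m, π m = 0 ↔ ∃ m', m = y • m') :
    Res R N where
  X n := ModuleCat.of R (F.X n × F.sh n)
  d n := F.coneD y n
  ε := π ∘ₗ F.ε ∘ₗ LinearMap.fst R _ _
  proj n := by
    have h1 := F.proj n
    have h2 : Module.Projective R (F.sh n) := by
      cases n with
      | zero => exact inferInstanceAs (Module.Projective R PUnit)
      | succ n => exact F.proj n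
    exact inferInstanceAs (Module.Projective R (F.X n × F.sh n))
  surj := by
    intro z
    obtain ⟨m, rfl⟩ := hπ z
    obtain ⟨u, rfl⟩ := F.surj m
    exact ⟨(u, 0), rfl⟩
  exact0 := by
    rintro ⟨u, t⟩
    refine (F.cone_exact0 y π hker u).trans ⟨?_, ?_⟩
    · rintro ⟨u', v, h⟩
      exact ⟨(u', v), Prod.ext h rfl⟩
    · rintro ⟨⟨u', v⟩, h⟩
      exact ⟨u', v, congrArg Prod.fst h⟩
  exact n := by
    rintro ⟨u, v⟩
    refine (F.cone_exact y hy n u v).trans ⟨?_, ?_⟩
    · rintro ⟨u', v', h1, h2⟩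
      exact ⟨(u', v'), Prod.ext h1 h2⟩
    · rintro ⟨⟨u', v'⟩, h⟩
      exact ⟨u', v', congrArg Prod.fst h, congrArg Prod.snd h⟩

lemma cone_gen (F : Res R M) (y : R) (hy : ∀ m : M, y • m = 0 → m = 0)
    (π : M →ₗ[R] N) (hπ : Function.Surjective π) (hker : ∀ m, π m = 0 ↔ ∃ m', m = y • m')
    (C : ℕ) (hF : ∀ n, Gen R (F.X n) (C * (n + 1))) (n : ℕ) :
    Gen R ((F.cone y hy π hπ hker).X n) (2 * C * (n + 1)) := by
  have h2 : Gen R (F.sh n) (C * (n + 1)) := by
    cases n with
    | zero => exact ⟨∅, by simp, Subsingleton.elim (α := Submodule R PUnit) _ _⟩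
    | succ n => exact (hF n).mono (Nat.mul_le_mul_left _ (by omega))
  exact ((hF n).prod h2).mono (le_of_eq (by ring))

end Res

/-- A submodule of a module killed by an ideal with quotient `ℚ` needs no more generators. -/
lemma gen_sub [Algebra ℚ R] (𝔪 : Ideal R) (hD : ∀ r : R, ∃ c : ℚ, r - algebraMap ℚ R c ∈ 𝔪)
    (hM : ∀ r ∈ 𝔪, ∀ v : M, r • v = 0) {r : ℕ} (h : Gen R M r) (Z : Submodule R M) :
    Gen R Z r := by
  obtain ⟨s, hs, hs'⟩ := h
  let _ : Module ℚ M := Module.compHom M (algebraMap ℚ R)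
  have hsm : ∀ (c : ℚ) (v : M), c • v = algebraMap ℚ R c • v := fun _ _ => rfl
  have _ : IsScalarTower ℚ R M := ⟨fun c a v => by
    rw [hsm, Algebra.smul_def, mul_smul]⟩
  have hspan : Submodule.span ℚ (s : Set M) = ⊤ := by
    rw [eq_top_iff]
    rintro v -
    have hv : v ∈ Submodule.span R (s : Set M) := by rw [hs']; trivial
    induction hv using Submodule.span_induction with
    | mem x hx => exact Submodule.subset_span hx
    | zero => exact Submodule.zero_mem _
    | add x y _ _ hx hy => exact Submodule.add_mem _ hx hy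
    | smul a x _ hx =>
      obtain ⟨c, hc⟩ := hD a
      have : a • x = c • x := by
        rw [hsm, ← sub_eq_zero, ← sub_smul]
        exact hM _ hc x
      rw [this]
      exact Submodule.smul_mem _ c hx
  have _ : Module.Finite ℚ M := ⟨⟨s, hspan⟩⟩
  have hfr : Module.finrank ℚ M ≤ r := by
    refine le_trans ?_ hs
    have := finrank_span_finset_le_card (R := ℚ) s
    rw [Set.finrank, hspan, finrank_top] at this
    exact this
  let Z' : Submodule ℚ M := Z.restrictScalars ℚ
  let b := Module.finBasis ℚ Z'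
  have hZ : Module.finrank ℚ Z' ≤ r := (Submodule.finrank_le Z').trans hfr
  have := gen_of_family (R := R) (fun i => (⟨(b i).1, (b i).2⟩ : Z)) (by
    rw [eq_top_iff]
    rintro ⟨z, hz⟩ -
    have h1 : (⟨z, hz⟩ : Z) =
        ∑ i, algebraMap ℚ R (b.repr ⟨z, hz⟩ i) • (⟨(b i).1, (b i).2⟩ : Z) := by
      apply Subtype.ext
      have := congrArg Subtype.val (b.sum_repr ⟨z, hz⟩)
      rw [Submodule.coe_sum] at this ⊢
      exact this.symm
    rw [h1]
    exact Submodule.sum_mem _ fun i _ =>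
      Submodule.smul_mem _ _ (Submodule.subset_span ⟨i, rfl⟩))
  exact this.mono (by simpa using hZ)

/-- Upper bound for the Betti numbers of the residue field. -/
lemma gen_tor_residue [Algebra ℚ R] [IsLocalRing R]
    (hD : ∀ r : R, ∃ c : ℚ, r - algebraMap ℚ R c ∈ IsLocalRing.maximalIdeal R)
    (F : Res R (IsLocalRing.ResidueField R)) (n r : ℕ) (h : Gen R (F.X (n + 1)) r) :
    Gen R (tor R (ModuleCat.of R (IsLocalRing.ResidueField R))
      (ModuleCat.of R (IsLocalRing.ResidueField R)) (n + 1)) r := by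
  obtain ⟨π, hπ, -⟩ := F.tor_surj (IsLocalRing.ResidueField R) n
  have h1 : Gen R (IsLocalRing.ResidueField R ⊗[R] F.X (n + 1)) r :=
    h.of_surj (TensorProduct.mk R (IsLocalRing.ResidueField R) (F.X (n + 1)) 1)
      (TensorProduct.mk_surjective R _ _ IsLocalRing.residue_surjective)
  refine (gen_sub (IsLocalRing.maximalIdeal R) hD ?_ h1 _).of_surj π hπ
  intro a ha v
  induction v using TensorProduct.induction_on with
  | zero => simp
  | tmul k x =>
    rw [TensorProduct.smul_tmul', Algebra.smul_def]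
    have : algebraMap R (IsLocalRing.ResidueField R) a = 0 :=
      (IsLocalRing.residue_eq_zero_iff a).2 ha
    rw [this, zero_mul, TensorProduct.zero_tmul]
  | add x y hx hy => rw [smul_add, hx, hy, add_zero]

lemma cxResidue_le_two [Algebra ℚ R] [IsLocalRing R]
    (hD : ∀ r : R, ∃ c : ℚ, r - algebraMap ℚ R c ∈ IsLocalRing.maximalIdeal R)
    (F : Res R (IsLocalRing.ResidueField R)) (C : ℕ) (h : ∀ n, Gen R (F.X n) (C * (n + 1))) :
    cxResidue R ≤ 2 := by
  refine iInf₂_le_of_le (2 : ℕ) ⟨2 * C + 1, by positivity, ?_⟩ le_rfl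
  filter_upwards [Filter.eventually_ge_atTop 1] with n hn
  obtain ⟨n, rfl⟩ : ∃ n', n = n' + 1 := ⟨n - 1, by omega⟩
  obtain ⟨m, hm, hm'⟩ := mu_le_of_gen (gen_tor_residue hD F n _ (h (n + 1)))
  refine ⟨m, hm, ?_⟩
  have h1 : (m : ℝ) ≤ C * (n + 1 + 1) := by exact_mod_cast hm'
  have h2 : (((2 : ℕ) : ℤ) - 1) = 1 := by norm_num
  rw [h2, zpow_one]
  push_cast
  have h3 : (0 : ℝ) ≤ C := Nat.cast_nonneg C
  have h4 : (0 : ℝ) ≤ n := Nat.cast_nonneg n
  nlinarith [mul_nonneg h3 h4]

end Pool.Agent.Lib.MP_b9b9f8_al
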