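import Mathlib
import Pool.Agent.Lib.MP_b9b9f8_al.Gen

/-! The Tate resolution attached to three elements `x` and two Koszul cycles `a`, `b`. -/

namespace Pool.Agent.Lib.MP_b9b9f8_al

open Matrix

/-- Three vectors `x`, `a`, `b` such that the Koszul homology of `x` is the exterior algebra
on the classes of `a` and `b` over `R / (x)`. -/
structure Kos (R : Type) [CommRing R] where
  x : Fin 3 → R
  a : Fin 3 → R
  b : Fin 3 → R
  hax : a ⬝ᵥ x = 0
  hbx : b ⬝ᵥ x = 0
  h1gen : ∀ v, x ⬝ᵥ v = 0 → ∃ (p p' : R) (w : Fin 3 → R), v = p • a + p' • b + w ⨯₃ x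
  h1free : ∀ (p p' : R) (w : Fin 3 → R), p • a + p' • b + w ⨯₃ x = 0 →
    (∃ y, p = x ⬝ᵥ y) ∧ (∃ y, p' = x ⬝ᵥ y)
  h2gen : ∀ w, w ⨯₃ x = 0 → ∃ u r : R, w = u • (a ⨯₃ b) + r • x
  h2free : ∀ u r : R, u • (a ⨯₃ b) + r • x = 0 → ∃ y, u = x ⬝ᵥ y
  h3 : ∀ r : R, r • x = 0 → r = 0

variable {R : Type} [CommRing R]

/-- The even terms of the Tate resolution. -/
abbrev FE (R : Type) (m : ℕ) : Type := (Fin (m + 1) → R) × (Fin m → Fin 3 → R)

/-- The odd terms of the Tate resolution. -/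
abbrev FO (R : Type) (m : ℕ) : Type := (Fin (m + 1) → Fin 3 → R) × (Fin m → R)

lemma gen_FE (m : ℕ) : Gen R (FE R m) (4 * m + 1) := by
  have := gen_of_family (R := R) _
    ((Pi.basisFun R (Fin (m + 1))).prod
      (Pi.basis fun _ : Fin m => Pi.basisFun R (Fin 3))).span_eq
  refine this.mono (le_of_eq ?_)
  simp
  ring

lemma gen_FO (m : ℕ) : Gen R (FO R m) (4 * m + 3) := by
  have := gen_of_family (R := R) _
    ((Pi.basis fun _ : Fin (m + 1) => Pi.basisFun R (Fin 3)).prod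
      (Pi.basisFun R (Fin m))).span_eq
  refine this.mono (le_of_eq ?_)
  simp
  ring

namespace Kos

variable (K : Kos R)

lemma hxa : K.x ⬝ᵥ K.a = 0 := by rw [dotProduct_comm, K.hax]

lemma hxb : K.x ⬝ᵥ K.b = 0 := by rw [dotProduct_comm, K.hbx]

lemma a_cross (w : Fin 3 → R) : K.a ⨯₃ (w ⨯₃ K.x) = -((K.a ⬝ᵥ w) • K.x) := by
  rw [cross_cross_eq_smul_sub_smul', K.hax, zero_smul, zero_sub, dotProduct_comm]

lemma b_cross (w : Fin 3 → R) : K.b ⨯₃ (w ⨯₃ K.x) = -((K.b ⬝ᵥ w) • K.x) := by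
  rw [cross_cross_eq_smul_sub_smul', K.hbx, zero_smul, zero_sub, dotProduct_comm]

lemma a_cross' (w : Fin 3 → R) : (K.a ⨯₃ w) ⨯₃ K.x = -((K.x ⬝ᵥ w) • K.a) := by
  rw [cross_cross_eq_smul_sub_smul, K.hax, zero_smul, zero_sub, dotProduct_comm]

lemma b_cross' (w : Fin 3 → R) : (K.b ⨯₃ w) ⨯₃ K.x = -((K.x ⬝ᵥ w) • K.b) := by
  rw [cross_cross_eq_smul_sub_smul, K.hbx, zero_smul, zero_sub, dotProduct_comm]

lemma b_cross_a : K.b ⨯₃ K.a = -(K.a ⨯₃ K.b) := (cross_anticomm _ _).symm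

/-- The differential from an odd term to an even term. -/
def dO (m : ℕ) : FO R m →ₗ[R] FE R m where
  toFun z := (fun j => K.x ⬝ᵥ z.1 j,
    fun j => K.a ⨯₃ z.1 j.succ + K.b ⨯₃ z.1 j.castSucc + z.2 j • K.x)
  map_add' z z' := by
    refine Prod.ext (funext fun j => ?_) (funext fun j => ?_)
    · simp
    · simp only [Prod.fst_add, Pi.add_apply, map_add, Prod.snd_add, add_smul]
      abel
  map_smul' c z := by
    refine Prod.ext (funext fun j => ?_) (funext fun j => ?_)
    · simp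
    · simp [smul_add, mul_smul]

/-- The differential from an even term to an odd term. -/
def dE (m : ℕ) : FE R (m + 1) →ₗ[R] FO R m where
  toFun z := (fun j => z.1 j.succ • K.a + z.1 j.castSucc • K.b + z.2 j ⨯₃ K.x,
    fun j => K.a ⬝ᵥ z.2 j.succ + K.b ⬝ᵥ z.2 j.castSucc)
  map_add' z z' := by
    refine Prod.ext (funext fun j => ?_) (funext fun j => ?_)
    · simp only [Prod.fst_add, Pi.add_apply, map_add, Prod.snd_add, add_smul,
        LinearMap.add_apply]
      abel
    · simp only [Prod.snd_add, Pi.add_apply, dotProduct_add]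
      abel
  map_smul' c z := by
    refine Prod.ext (funext fun j => ?_) (funext fun j => ?_)
    · simp [smul_add, mul_smul]
    · simp [mul_add]

lemma dO_fst (m : ℕ) (z : FO R m) (j : Fin (m + 1)) : (K.dO m z).1 j = K.x ⬝ᵥ z.1 j := rfl

lemma dO_snd (m : ℕ) (z : FO R m) (j : Fin m) :
    (K.dO m z).2 j = K.a ⨯₃ z.1 j.succ + K.b ⨯₃ z.1 j.castSucc + z.2 j • K.x := rfl

lemma dE_fst (m : ℕ) (z : FE R (m + 1)) (j : Fin (m + 1)) :
    (K.dE m z).1 j = z.1 j.succ • K.a + z.1 j.castSucc • K.b + z.2 j ⨯₃ K.x := rfl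

lemma dE_snd (m : ℕ) (z : FE R (m + 1)) (j : Fin m) :
    (K.dE m z).2 j = K.a ⬝ᵥ z.2 j.succ + K.b ⬝ᵥ z.2 j.castSucc := rfl

lemma dO_dE (m : ℕ) (z : FE R (m + 1)) : K.dO m (K.dE m z) = 0 := by
  refine Prod.ext (funext fun j => ?_) (funext fun j => ?_)
  · rw [dO_fst, dE_fst]
    simp [K.hxa, K.hxb]
  · rw [dO_snd, dE_fst, dE_fst, dE_snd]
    simp only [map_add, map_smul, cross_self, smul_zero, K.a_cross, K.b_cross, K.b_cross_a,
      Fin.succ_castSucc, add_smul, Prod.snd_zero, Pi.zero_apply, smul_neg]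
    abel

lemma dE_dO (m : ℕ) (z : FO R (m + 1)) : K.dE m (K.dO (m + 1) z) = 0 := by
  refine Prod.ext (funext fun j => ?_) (funext fun j => ?_)
  · rw [dE_fst, dO_fst, dO_fst, dO_snd]
    simp only [map_add, map_smul, LinearMap.add_apply, LinearMap.smul_apply, cross_self,
      smul_zero, K.a_cross', K.b_cross', Prod.fst_zero, Pi.zero_apply]
    abel
  · rw [dE_snd, dO_snd, dO_snd]
    simp only [dotProduct_add, dotProduct_smul, dot_self_cross, K.hax, K.hbx, smul_zero,
      Prod.snd_zero, Pi.zero_apply, Fin.succ_castSucc]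
    rw [triple_product_permutation K.a K.b, ← cross_anticomm K.a, dotProduct_neg]
    abel

lemma exact_O (m : ℕ) : Function.Exact (K.dE m) (K.dO m) := by
  intro z
  refine ⟨fun hz => ?_, by rintro ⟨w, rfl⟩; exact K.dO_dE m w⟩
  have h1 : ∀ j, K.x ⬝ᵥ z.1 j = 0 := fun j => congrFun (congrArg Prod.fst hz) j
  have h2 : ∀ j : Fin m, K.a ⨯₃ z.1 j.succ + K.b ⨯₃ z.1 j.castSucc + z.2 j • K.x = 0 :=
    fun j => congrFun (congrArg Prod.snd hz) j
  choose p p' w hw using fun j => K.h1gen _ (h1 j)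
  have h3 : ∀ j : Fin m, ∃ y, p' j.succ - p j.castSucc = K.x ⬝ᵥ y := by
    intro j
    apply K.h2free _ (z.2 j - K.a ⬝ᵥ w j.succ - K.b ⬝ᵥ w j.castSucc)
    rw [← h2 j, hw j.succ, hw j.castSucc]
    simp only [map_add, map_smul, cross_self, smul_zero, K.a_cross, K.b_cross, K.b_cross_a,
      sub_smul, smul_neg]
    abel
  choose y hy using h3
  let Z : FE R (m + 1) := (Fin.cons (p' 0) p, Fin.cons (w 0) fun j => w j.succ - K.b ⨯₃ y j)
  have hZ : (K.dE m Z).1 = z.1 := by
    funext j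
    rw [dE_fst, hw j]
    refine Fin.cases ?_ (fun j => ?_) j
    · simp [Z]
    · have e1 : Z.1 j.succ.succ = p j.succ := by simp [Z]
      have e2 : Z.1 j.succ.castSucc = p j.castSucc := by
        rw [← Fin.succ_castSucc]; simp [Z]
      have e3 : Z.2 j.succ = w j.succ - K.b ⨯₃ y j := by simp [Z]
      rw [e1, e2, e3, map_sub, LinearMap.sub_apply, K.b_cross', ← hy j, sub_smul]
      abel
  refine ⟨Z, Prod.ext hZ (funext fun j => ?_)⟩
  rw [← sub_eq_zero]
  apply K.h3
  have h4 := congrFun (congrArg Prod.snd (K.dO_dE m Z)) j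
  rw [dO_snd, hZ] at h4
  have h5 := h2 j
  rw [sub_smul, sub_eq_zero]
  exact add_left_cancel (h4.trans h5.symm)

lemma exact_E (m : ℕ) : Function.Exact (K.dO (m + 1)) (K.dE m) := by
  intro z
  refine ⟨fun hz => ?_, by rintro ⟨w, rfl⟩; exact K.dE_dO m w⟩
  have h1 : ∀ j : Fin (m + 1),
      z.1 j.succ • K.a + z.1 j.castSucc • K.b + z.2 j ⨯₃ K.x = 0 :=
    fun j => congrFun (congrArg Prod.fst hz) j
  have h2 : ∀ j, ∃ y, z.1 j = K.x ⬝ᵥ y := by
    intro j
    refine Fin.cases ?_ (fun j => ?_) j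
    · exact (K.h1free _ _ _ (h1 0)).2
    · exact (K.h1free _ _ _ (h1 j)).1
  choose v hv using h2
  have h3 : ∀ j : Fin (m + 1), ∃ u r : R,
      z.2 j - K.a ⨯₃ v j.succ - K.b ⨯₃ v j.castSucc = u • (K.a ⨯₃ K.b) + r • K.x := by
    intro j
    apply K.h2gen
    rw [← h1 j, hv, hv]
    simp only [map_sub, LinearMap.sub_apply, K.a_cross', K.b_cross']
    abel
  choose u r hur using h3
  let V : Fin (m + 1 + 1) → Fin 3 → R := Fin.cons 0 fun j => u j • K.b
  have hV1 : ∀ j, K.x ⬝ᵥ V j = 0 := by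
    intro j
    refine Fin.cases ?_ (fun j => ?_) j
    · simp [V]
    · simp [V, K.hxb]
  have hV2 : ∀ j, K.b ⨯₃ V j = 0 := by
    intro j
    refine Fin.cases ?_ (fun j => ?_) j
    · simp [V]
    · simp [V]
  refine ⟨(v + V, r), Prod.ext (funext fun j => ?_) (funext fun j => ?_)⟩
  · rw [dO_fst, hv j]
    simp [hV1]
  · rw [dO_snd]
    have e1 : V j.succ = u j • K.b := by simp [V]
    simp only [Pi.add_apply, map_add, hV2, e1, map_smul, add_zero]
    have := hur j
    rw [sub_sub, sub_eq_iff_eq_add] at this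
    rw [this]
    abel

/-- The ideal generated by the three elements `x`. -/
def p : Ideal R := Ideal.span (Set.range K.x)

lemma mem_p (r : R) : r ∈ K.p ↔ ∃ y, r = K.x ⬝ᵥ y := by
  rw [p, Ideal.mem_span_range_iff_exists_fun]
  constructor
  · rintro ⟨c, rfl⟩
    exact ⟨c, by rw [dotProduct_comm]; rfl⟩
  · rintro ⟨c, rfl⟩
    exact ⟨c, by rw [dotProduct_comm]; rfl⟩

/-- The terms of the Tate resolution, indexed by parity and half the degree. -/
noncomputable def Y (R : Type) [CommRing R] : Bool × ℕ → ModuleCat.{0} R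
  | (false, m) => ModuleCat.of R (FE R m)
  | (true, m) => ModuleCat.of R (FO R m)

/-- The successor of an index. -/
def next : Bool × ℕ → Bool × ℕ
  | (false, m) => (true, m)
  | (true, m) => (false, m + 1)

/-- The differentials of the Tate resolution. -/
noncomputable def D : ∀ s : Bool × ℕ, Y R (next s) →ₗ[R] Y R s
  | (false, m) => K.dO m
  | (true, m) => K.dE m

/-- The index reached after `n` steps. -/
def idx (s : Bool × ℕ) : ℕ → Bool × ℕ
  | 0 => s
  | n + 1 => next (idx s n)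

lemma D_exact : ∀ s : Bool × ℕ, Function.Exact (K.D (next s)) (K.D s)
  | (false, m) => K.exact_O m
  | (true, m) => K.exact_E m

lemma Y_proj : ∀ s : Bool × ℕ, Module.Projective R (Y R s)
  | (false, m) => inferInstanceAs (Module.Projective R (FE R m))
  | (true, m) => inferInstanceAs (Module.Projective R (FO R m))

lemma Y_gen : ∀ s : Bool × ℕ, Gen R (Y R s) (4 * s.2 + 3)
  | (false, m) => (gen_FE m).mono (by simp)
  | (true, m) => gen_FO m

lemma idx_le (s : Bool × ℕ) (n : ℕ) : (idx s n).2 ≤ s.2 + n := by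
  induction n with
  | zero => exact le_rfl
  | succ n ih =>
    have : ∀ t : Bool × ℕ, (next t).2 ≤ t.2 + 1 := by
      rintro ⟨_ | _, m⟩
      · exact Nat.le_succ m
      · exact le_rfl
    exact (this _).trans (by omega)

lemma idx_odd (m : ℕ) : idx (true, 0) (2 * m + 1) = (false, m + 1) := by
  induction m with
  | zero => rfl
  | succ m ih =>
    change next (next (idx (true, 0) (2 * m + 1))) = _
    rw [ih]
    rfl

/-- The Tate resolution of `R / (x)`. -/
noncomputable def resQuot : Res R (R ⧸ K.p) where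
  X n := Y R (idx (false, 0) n)
  d n := K.D (idx (false, 0) n)
  ε := K.p.mkQ ∘ₗ LinearMap.proj (0 : Fin 1) ∘ₗ LinearMap.fst R _ (Fin 0 → Fin 3 → R)
  proj n := Y_proj _
  surj := by
    intro z
    obtain ⟨r, rfl⟩ := K.p.mkQ_surjective z
    exact ⟨(fun _ => r, 0), rfl⟩
  exact0 := by
    intro (z : FE R 0)
    change K.p.mkQ (z.1 0) = 0 ↔ ∃ w : FO R 0, K.dO 0 w = z
    rw [Submodule.mkQ_apply, Submodule.Quotient.mk_eq_zero, mem_p]
    constructor
    · rintro ⟨y, hy⟩
      refine ⟨(fun _ => y, 0), Prod.ext (funext fun j => ?_) (Subsingleton.elim _ _)⟩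
      rw [dO_fst, Subsingleton.elim (α := Fin 1) j 0, hy]
    · rintro ⟨w, rfl⟩
      exact ⟨w.1 0, rfl⟩
  exact n := K.D_exact _

lemma resQuot_gen (n : ℕ) : Gen R (K.resQuot.X n) (4 * (n + 1)) := by
  have h1 := idx_le (false, 0) n
  exact (Y_gen (R := R) (idx (false, 0) n)).mono (by simp at h1; omega)

/-- The augmentation onto the ideal `(x)`. -/
def epsP : FO R 0 →ₗ[R] K.p where
  toFun z := ⟨K.x ⬝ᵥ z.1 0, (K.mem_p _).2 ⟨_, rfl⟩⟩
  map_add' z z' := Subtype.ext (by simp)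
  map_smul' c z := Subtype.ext (by simp)

/-- The truncated Tate resolution, which resolves the ideal `(x)`. -/
noncomputable def resP : Res R K.p where
  X n := Y R (idx (true, 0) n)
  d n := K.D (idx (true, 0) n)
  ε := K.epsP
  proj n := Y_proj _
  surj := by
    rintro ⟨r, hr⟩
    obtain ⟨y, rfl⟩ := (K.mem_p r).1 hr
    exact ⟨(fun _ => y, 0), rfl⟩
  exact0 := by
    intro (z : FO R 0)
    refine Iff.trans ?_ (K.exact_O 0 z)
    change K.epsP z = 0 ↔ K.dO 0 z = 0
    constructor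
    · intro h
      refine Prod.ext (funext fun j => ?_) (Subsingleton.elim _ _)
      rw [dO_fst, Subsingleton.elim (α := Fin 1) j 0]
      exact congrArg Subtype.val h
    · intro h
      exact Subtype.ext (congrFun (congrArg Prod.fst h) 0)
  exact n := K.D_exact _

/-- Even Tor modules against the ideal `(x)`, computed from the Tate resolution. -/
theorem tor_p (N : Type) [AddCommGroup N] [Module R N] (m : ℕ) :
    ∃ π : LinearMap.ker ((K.dO (m + 1)).lTensor N) →ₗ[R]
        tor R (ModuleCat.of R N) (ModuleCat.of R K.p) (2 * m + 1 + 1),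
      Function.Surjective π ∧
        ∀ z, π z = 0 ↔ z.1 ∈ LinearMap.range ((K.dE (m + 1)).lTensor N) := by
  have key : ∀ s, idx (true, 0) (2 * m + 1) = s →
      ∃ π : LinearMap.ker ((K.D s).lTensor N) →ₗ[R]
        tor R (ModuleCat.of R N) (ModuleCat.of R K.p) (2 * m + 1 + 1),
      Function.Surjective π ∧
        ∀ z, π z = 0 ↔ z.1 ∈ LinearMap.range ((K.D (next s)).lTensor N) := by
    rintro _ rfl
    exact K.resP.tor_surj N (2 * m + 1)
  exact key _ (idx_odd m)

end Kos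

end Pool.Agent.Lib.MP_b9b9f8_al
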