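import Mathlib
import Pool.Agent.Lib.MP_b9b9f8_al.Tate

/-! A test map on `Tor(I, (x))` and explicit cycles. -/

namespace Pool.Agent.Lib.MP_b9b9f8_al

open Matrix TensorProduct CategoryTheory

variable {R : Type} [CommRing R]

lemma exists_lift {M N T : Type} [AddCommGroup M] [Module R M] [AddCommGroup N] [Module R N]
    [AddCommGroup T] [Module R T] (e : M →ₗ[R] N) (he : Function.Surjective e) (L : M →ₗ[R] T)
    (h : ∀ z, e z = 0 → L z = 0) : ∃ l : N →ₗ[R] T, ∀ z, l (e z) = L z := by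
  refine ⟨(LinearMap.ker e).liftQ L (fun z hz => h z hz) ∘ₗ
    (e.quotKerEquivOfSurjective he).symm.toLinearMap, fun z => ?_⟩
  have : (e.quotKerEquivOfSurjective he).symm (e z) = (LinearMap.ker e).mkQ z := by
    rw [LinearEquiv.symm_apply_eq]
    rfl
  simp [this]

/-- A test algebra for the data `K`. -/
structure Test (K : Kos R) (B : Type) [CommRing B] [Algebra R B] where
  s₁ : B
  s₂ : B
  t : Fin 3 → B
  t_two : t 2 = 1
  prime : Prime s₁
  not_dvd : ¬ s₁ ∣ s₂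
  hx : ∀ i, algebraMap R B (K.x i) = 0
  ha : ∀ i, algebraMap R B (K.a i) = s₁ * t i
  hb : ∀ i, algebraMap R B (K.b i) = s₂ * t i

variable {B : Type} [CommRing B] [Algebra R B]

/-- The map on vectors induced by the algebra map. -/
def vmap (B : Type) [CommRing B] [Algebra R B] : (Fin 3 → R) →ₗ[R] (Fin 3 → B) where
  toFun v i := algebraMap R B (v i)
  map_add' v w := by ext i; simp
  map_smul' c v := by ext i; simp [Algebra.smul_def]

lemma vmap_apply (v : Fin 3 → R) (i : Fin 3) : vmap B v i = algebraMap R B (v i) := rfl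

lemma vmap_cross (v w : Fin 3 → R) : vmap B (v ⨯₃ w) = vmap B v ⨯₃ vmap B w := by
  ext i
  fin_cases i <;> simp [vmap_apply, cross_apply]

lemma vmap_smul (c : R) (v : Fin 3 → R) : vmap B (c • v) = algebraMap R B c • vmap B v := by
  ext i
  simp [vmap_apply, Algebra.smul_def]

lemma vmap_single (k : Fin 3) : vmap B (Pi.single k (1 : R)) = Pi.single k 1 := by
  ext i
  by_cases h : i = k
  · subst h; simp [vmap_apply]
  · simp [vmap_apply, h]

lemma pow_dvd_of_chain {s₁ s₂ : B} (hp : Prime s₁) (hn : ¬ s₁ ∣ s₂) [IsDomain B] (M : ℕ)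
    (c : Fin (M + 1) → B) (h : ∀ j : Fin M, s₁ * c j.succ + s₂ * c j.castSucc = 0) :
    s₁ ^ M ∣ c 0 := by
  have key : ∀ j : Fin (M + 1), s₂ ^ (j : ℕ) * c 0 = (-s₁) ^ (j : ℕ) * c j := by
    intro j
    induction j using Fin.induction with
    | zero => simp
    | succ j ih =>
      rw [Fin.val_succ, Fin.val_castSucc] at *
      have := h j
      rw [pow_succ, pow_succ]
      linear_combination s₂ * ih + (-s₁) ^ (j : ℕ) * this
  have h1 := key (Fin.last M)
  rw [Fin.val_last] at h1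
  have h2 : s₁ ^ M ∣ s₂ ^ M * c 0 := by
    rw [h1, neg_pow]
    exact Dvd.dvd.mul_right (Dvd.intro_left _ rfl) _
  exact hp.pow_dvd_of_dvd_mul_left M (fun hd => hn (hp.dvd_of_dvd_pow hd)) h2

namespace Test

variable {K : Kos R} (T : Test K B)

include T in
lemma vx : vmap B K.x = 0 := funext T.hx

lemma va : vmap B K.a = T.s₁ • T.t := funext T.ha

lemma vb : vmap B K.b = T.s₂ • T.t := funext T.hb

lemma exists_lam : ∃ lam : K.p →ₗ[R] (Fin 3 → B),
    ∀ y : Fin 3 → R, lam ⟨K.x ⬝ᵥ y, (K.mem_p _).2 ⟨_, rfl⟩⟩ = T.t ⨯₃ vmap B y := by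
  let e : (Fin 3 → R) →ₗ[R] K.p :=
    { toFun := fun y => ⟨K.x ⬝ᵥ y, (K.mem_p _).2 ⟨_, rfl⟩⟩
      map_add' := fun y y' => Subtype.ext (by simp)
      map_smul' := fun c y => Subtype.ext (by simp) }
  let L : (Fin 3 → R) →ₗ[R] (Fin 3 → B) :=
    { toFun := fun y => T.t ⨯₃ vmap B y
      map_add' := fun y y' => by simp
      map_smul' := fun c y => by simp }
  refine exists_lift e ?_ L ?_
  · rintro ⟨r, hr⟩
    obtain ⟨y, rfl⟩ := (K.mem_p r).1 hr
    exact ⟨y, rfl⟩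
  · intro y hy
    obtain ⟨p, p', w, rfl⟩ := K.h1gen y (congrArg Subtype.val hy)
    change T.t ⨯₃ vmap B _ = 0
    rw [(vmap B).map_add, (vmap B).map_add, vmap_smul, vmap_smul, vmap_cross, T.va, T.vb, T.vx]
    simp

end Test

section maps

variable {N : Type} [AddCommGroup N] [Module R N] (lam : N →ₗ[R] (Fin 3 → B))

/-- The test functionals on the odd terms. -/
def cmap (M : ℕ) (j : Fin (M + 1)) : N ⊗[R] FO R M →ₗ[R] B :=
  TensorProduct.lift (LinearMap.mk₂ R (fun π z => lam π ⬝ᵥ vmap B (z.1 j))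
    (fun π π' z => by simp) (fun c π z => by simp)
    (fun π z z' => by simp) (fun c π z => by simp))

/-- The test functionals on the even terms. -/
def pmap (M : ℕ) (j : Fin M) : N ⊗[R] FE R M →ₗ[R] B :=
  TensorProduct.lift (LinearMap.mk₂ R (fun π z => (lam π ⨯₃ vmap B (z.2 j)) 2)
    (fun π π' z => by simp) (fun c π z => by simp)
    (fun π z z' => by simp) (fun c π z => by simp))

lemma cmap_tmul (M : ℕ) (j : Fin (M + 1)) (π : N) (z : FO R M) :
    cmap lam M j (π ⊗ₜ z) = lam π ⬝ᵥ vmap B (z.1 j) := rfl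

lemma pmap_tmul (M : ℕ) (j : Fin M) (π : N) (z : FE R M) :
    pmap lam M j (π ⊗ₜ z) = (lam π ⨯₃ vmap B (z.2 j)) 2 := rfl

variable {K : Kos R} (T : Test K B) (hlam : ∀ π, lam π ⬝ᵥ T.t = 0)

include hlam

lemma cmap_boundary (M : ℕ) (j : Fin (M + 1)) (z : N ⊗[R] FE R (M + 1)) :
    cmap lam M j ((K.dE M).lTensor N z) = 0 := by
  induction z using TensorProduct.induction_on with
  | zero => simp
  | tmul π z =>
    rw [LinearMap.lTensor_tmul, cmap_tmul, K.dE_fst, map_add, map_add, vmap_smul, vmap_smul,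
      vmap_cross, T.va, T.vb, T.vx]
    simp [hlam]
  | add z z' hz hz' => rw [map_add, map_add, hz, hz', add_zero]

lemma pmap_d (M : ℕ) (j : Fin M) (z : N ⊗[R] FO R M) :
    pmap lam M j ((K.dO M).lTensor N z) =
      T.s₁ * cmap lam M j.succ z + T.s₂ * cmap lam M j.castSucc z := by
  induction z using TensorProduct.induction_on with
  | zero => simp
  | tmul π z =>
    rw [LinearMap.lTensor_tmul, pmap_tmul, cmap_tmul, cmap_tmul, K.dO_snd, (vmap B).map_add,
      (vmap B).map_add, vmap_smul, vmap_cross, vmap_cross, T.va, T.vb, T.vx]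
    have h := hlam π
    rw [dotProduct_comm] at h
    simp only [map_smul, LinearMap.smul_apply, smul_zero, add_zero, map_add,
      cross_cross_eq_smul_sub_smul', h, zero_smul, sub_zero, Pi.add_apply, Pi.smul_apply,
      T.t_two, smul_eq_mul, mul_one]
  | add z z' hz hz' =>
    simp only [map_add, hz, hz']
    ring

lemma cmap_cycle [IsDomain B] (M : ℕ) (z : N ⊗[R] FO R M) (hz : (K.dO M).lTensor N z = 0) :
    T.s₁ ^ M ∣ cmap lam M 0 z := by
  refine pow_dvd_of_chain T.prime T.not_dvd M (fun j => cmap lam M j z) fun j => ?_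
  rw [← pmap_d lam T hlam, hz, map_zero]

end maps

namespace Kos

variable (K : Kos R)

/-- The explicit vectors in the kernel of the banded matrix. -/
def wv (M : ℕ) (ι : ℕ → Fin 3) (j : ℕ) : Fin 3 → R :=
  ((-1) ^ j * (∏ l ∈ Finset.range j, K.b (ι l)) * ∏ l ∈ Finset.Ico (j + 1) (M + 1), K.a (ι l)) •
    Pi.single (ι j) 1

lemma wv_rel (M : ℕ) (ι : ℕ → Fin 3) (j : ℕ) (hj : j < M) :
    K.a ⬝ᵥ K.wv M ι (j + 1) + K.b ⬝ᵥ K.wv M ι j = 0 := by
  simp only [wv, dotProduct_smul, dotProduct_single, mul_one, smul_eq_mul]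
  rw [Finset.prod_range_succ, Finset.prod_eq_prod_Ico_succ_bot (show j + 1 < M + 1 by omega),
    pow_succ]
  ring

/-- The explicit cycles. -/
def cyc (I : Ideal R) (hI : ∀ k, K.a 2 * K.x k ∈ I) (M : ℕ) (ι : ℕ → Fin 3) : I ⊗[R] FO R M :=
  ∑ k : Fin 3, (⟨K.a 2 * K.x k, hI k⟩ : I) ⊗ₜ
    ((fun j => K.wv M ι j ⨯₃ Pi.single k 1, 0) : FO R M)

lemma cyc_cycle (I : Ideal R) (hI : ∀ k, K.a 2 * K.x k ∈ I) (M : ℕ) (ι : ℕ → Fin 3) :
    (K.dO M).lTensor I (K.cyc I hI M ι) = 0 := by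
  have hinj : Function.Injective
      ((TensorProduct.lid R (FE R M)).toLinearMap ∘ₗ (I.subtype.rTensor (FE R M))) := by
    rw [LinearMap.coe_comp]
    exact (TensorProduct.lid R (FE R M)).injective.comp
      (Module.Flat.rTensor_preserves_injective_linearMap _ I.injective_subtype)
  apply hinj
  rw [map_zero, cyc, map_sum, map_sum]
  simp only [LinearMap.lTensor_tmul, LinearMap.comp_apply, LinearMap.rTensor_tmul,
    Submodule.subtype_apply, LinearEquiv.coe_coe, TensorProduct.lid_tmul, ← map_smul]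
  rw [← map_sum]
  have h1 : ∑ k : Fin 3, (K.a 2 * K.x k) •
      ((fun j => K.wv M ι j ⨯₃ Pi.single k 1, 0) : FO R M) =
      K.a 2 • K.dE M ((0, fun j => K.wv M ι j) : FE R (M + 1)) := by
    refine Prod.ext (funext fun j => ?_) (funext fun j => ?_)
    · rw [Prod.smul_fst, Pi.smul_apply, dE_fst, Prod.fst_sum, Finset.sum_apply]
      ext i
      fin_cases i <;> simp [Fin.sum_univ_three, cross_apply] <;> ring
    · rw [Prod.smul_snd, Pi.smul_apply, dE_snd, Prod.snd_sum, Finset.sum_apply]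
      have := K.wv_rel M ι j j.2
      simp only [Fin.val_succ, Fin.val_castSucc, this]
      simp
  rw [h1, map_smul, dO_dE, smul_zero]

end Kos

lemma cmap_cyc {K : Kos R} (T : Test K B) (I : Ideal R) (hI : ∀ k, K.a 2 * K.x k ∈ I)
    (lam : I →ₗ[R] (Fin 3 → B))
    (hl : ∀ k, lam ⟨K.a 2 * K.x k, hI k⟩ = T.s₁ • (T.t ⨯₃ Pi.single k 1)) (M : ℕ)
    (ι : ℕ → Fin 3) :
    cmap lam M 0 (K.cyc I hI M ι) =
      2 * T.s₁ ^ (M + 1) * ∏ l ∈ Finset.range (M + 1), T.t (ι l) := by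
  have hw : T.t ⬝ᵥ vmap B (K.wv M ι 0) = T.s₁ ^ M * ∏ l ∈ Finset.range (M + 1), T.t (ι l) := by
    rw [Kos.wv, vmap_smul, vmap_single, Finset.range_eq_Ico,
      Finset.range_eq_Ico, Finset.prod_eq_prod_Ico_succ_bot (show 0 < M + 1 by omega)]
    simp [map_prod, T.ha, Finset.prod_mul_distrib]
    ring
  rw [Kos.cyc, map_sum]
  simp only [cmap_tmul, hl, vmap_cross, vmap_single, smul_dotProduct, cross_dot_cross]
  have h0 : ((0 : Fin (M + 1)) : ℕ) = 0 := rfl
  simp only [h0, smul_eq_mul, dotProduct_single, single_dotProduct, mul_one, one_mul,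
    Pi.single_eq_same, Fin.sum_univ_three]
  have h2 : T.t ⬝ᵥ vmap B (K.wv M ι 0) = T.t 0 * vmap B (K.wv M ι 0) 0 +
      T.t 1 * vmap B (K.wv M ι 0) 1 + T.t 2 * vmap B (K.wv M ι 0) 2 := by
    simp [dotProduct, Fin.sum_univ_three]
  rw [pow_succ]
  linear_combination (2 * T.s₁) * hw + T.s₁ * h2

/-- The main consequence of a bound on the number of generators of `Tor(I, J)`. -/
theorem lower_span [IsDomain B] {K : Kos R} (T : Test K B) (I J : Ideal R) (hIp : I ≤ K.p)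
    (hI : ∀ k, K.a 2 * K.x k ∈ I) (hJp : J ≤ K.p) (hJ : ∀ r ∈ K.p, K.a 2 * r ∈ J) (m μ : ℕ)
    (hμ : Gen R (tor R (ModuleCat.of R I) (ModuleCat.of R J) (2 * m + 1 + 1)) μ) :
    ∃ (σ : Type) (s : Finset σ) (g : σ → B), s.card ≤ μ ∧ ∀ ι : ℕ → Fin 3, ∃ r : σ → R,
      2 * T.s₁ ^ 2 * ∏ l ∈ Finset.range (m + 2), T.t (ι l) =
        ∑ u ∈ s, algebraMap R B (r u) * g u := by
  obtain ⟨lam₀, hlam₀⟩ := T.exists_lam
  let lam : I →ₗ[R] (Fin 3 → B) := lam₀ ∘ₗ Submodule.inclusion hIp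
  have hlam : ∀ π, lam π ⬝ᵥ T.t = 0 := by
    rintro ⟨r, hr⟩
    obtain ⟨y, rfl⟩ := (K.mem_p r).1 (hIp hr)
    change lam₀ ⟨K.x ⬝ᵥ y, _⟩ ⬝ᵥ T.t = 0
    rw [hlam₀, dotProduct_comm, dot_self_cross]
  have hl : ∀ k, lam ⟨K.a 2 * K.x k, hI k⟩ = T.s₁ • (T.t ⨯₃ Pi.single k 1) := by
    intro k
    have h1 := hlam₀ (K.a 2 • Pi.single k 1)
    rw [vmap_smul, vmap_single, T.ha, T.t_two, mul_one, map_smul] at h1
    rw [← h1]
    change lam₀ _ = lam₀ _
    congr 1
    apply Subtype.ext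
    simp
  obtain ⟨π, hπ, hπ0⟩ := K.tor_p I m
  have hkill : ∀ z, π z = 0 →
      (cmap lam (m + 1) 0 ∘ₗ (LinearMap.ker ((K.dO (m + 1)).lTensor I)).subtype) z = 0 := by
    intro z hz
    obtain ⟨w, hw⟩ := (hπ0 z).1 hz
    change cmap lam (m + 1) 0 z.1 = 0
    rw [← hw, cmap_boundary lam T hlam]
  obtain ⟨Φ, hΦ⟩ := exists_lift (R := R) (M := LinearMap.ker ((K.dO (m + 1)).lTensor I))
    (N := tor R (ModuleCat.of R I) (ModuleCat.of R K.p) (2 * m + 1 + 1)) (T := B) π hπ _ hkill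
  have hdvd : ∀ η, T.s₁ ^ (m + 1) ∣ Φ η := by
    intro η
    obtain ⟨z, rfl⟩ := hπ η
    rw [hΦ]
    exact cmap_cycle lam T hlam _ _ z.2
  let F := (Tor (ModuleCat.{0} R) (2 * m + 1 + 1)).obj (ModuleCat.of R I)
  let f : ModuleCat.of R K.p ⟶ ModuleCat.of R J := ModuleCat.ofHom
    { toFun := fun r => ⟨K.a 2 * r.1, hJ _ r.2⟩
      map_add' := fun r r' => Subtype.ext (by simp [mul_add])
      map_smul' := fun c r => Subtype.ext (by simp [mul_left_comm]) }
  let g : ModuleCat.of R J ⟶ ModuleCat.of R K.p := ModuleCat.ofHom (Submodule.inclusion hJp)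
  have hfg : f ≫ g = K.a 2 • 𝟙 _ := by
    ext r
    rfl
  have hF : ∀ η : F.obj (ModuleCat.of R K.p), (F.map g).hom ((F.map f).hom η) = K.a 2 • η := by
    intro η
    have h1 : F.map f ≫ F.map g = K.a 2 • 𝟙 _ := by
      rw [← F.map_comp, hfg]
      exact tor_map_smul _ _ _ _
    exact congrArg (fun φ => φ.hom η) h1
  obtain ⟨s, hs, hspan⟩ := hμ
  choose q hq using fun u : tor R (ModuleCat.of R I) (ModuleCat.of R J) (2 * m + 1 + 1) =>
    hdvd ((F.map g).hom u)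
  refine ⟨_, s, q, hs, fun ι => ?_⟩
  let ζ := π ⟨K.cyc I hI (m + 1) ι, K.cyc_cycle I hI (m + 1) ι⟩
  have hζ : Φ ζ = 2 * T.s₁ ^ (m + 1 + 1) * ∏ l ∈ Finset.range (m + 1 + 1), T.t (ι l) := by
    rw [hΦ]
    exact cmap_cyc T I hI lam hl (m + 1) ι
  let ξ : tor R (ModuleCat.of R I) (ModuleCat.of R J) (2 * m + 1 + 1) := (F.map f).hom ζ
  have hmem : ξ ∈ Submodule.span R
      (s : Set (tor R (ModuleCat.of R I) (ModuleCat.of R J) (2 * m + 1 + 1))) := by
    rw [hspan]; trivial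
  obtain ⟨r, -, hr⟩ := (Submodule.mem_span_finset).1 hmem
  refine ⟨r, ?_⟩
  have h2 : Φ (K.a 2 • ζ) = ∑ u ∈ s, algebraMap R B (r u) * (T.s₁ ^ (m + 1) * q u) := by
    let G : tor R (ModuleCat.of R I) (ModuleCat.of R J) (2 * m + 1 + 1) →ₗ[R] B :=
      Φ ∘ₗ (F.map g).hom
    have h3 : G (∑ u ∈ s, r u • u) =
        ∑ u ∈ s, algebraMap R B (r u) * (T.s₁ ^ (m + 1) * q u) := by
      rw [map_sum]
      refine Finset.sum_congr rfl fun u _ => ?_
      rw [map_smul, Algebra.smul_def, ← hq u]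
      rfl
    rw [← h3, hr]
    exact congrArg Φ (hF ζ).symm
  rw [map_smul, hζ, Algebra.smul_def, T.ha, T.t_two] at h2
  apply mul_left_cancel₀ (pow_ne_zero (m + 1) T.prime.ne_zero)
  rw [Finset.mul_sum]
  rw [show ∑ u ∈ s, T.s₁ ^ (m + 1) * (algebraMap R B (r u) * q u) =
    ∑ u ∈ s, algebraMap R B (r u) * (T.s₁ ^ (m + 1) * q u) from
      Finset.sum_congr rfl fun u _ => by ring, ← h2]
  ring

end Pool.Agent.Lib.MP_b9b9f8_al
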