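import Mathlib
import Pool.Agent.Lib.MP_b9b9f8_al.Lower

/-! The concrete test algebra and the quadratic lower bound. -/

namespace Pool.Agent.Lib.MP_b9b9f8_al

open Matrix

/-- Polynomials in two variables. -/
abbrev PP : Type := MvPolynomial (Fin 2) ℚ

/-- The test ring: power series in two variables over `PP`. -/
abbrev BB : Type := PowerSeries (PowerSeries PP)

/-- The vector `(t₀, t₁, 1)`. -/
noncomputable def tau : Fin 3 → PP := ![MvPolynomial.X 0, MvPolynomial.X 1, 1]

/-- The vector `tau` in the test ring. -/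
noncomputable def tB (i : Fin 3) : BB := PowerSeries.C (PowerSeries.C (tau i))

/-- Setting the inner variable equal to zero. -/
noncomputable def rho : BB →+* PowerSeries PP := PowerSeries.map PowerSeries.constantCoeff

lemma rho_X : rho PowerSeries.X = PowerSeries.X := PowerSeries.map_X _

lemma rho_CX : rho (PowerSeries.C PowerSeries.X) = 0 := by simp [rho]

lemma rho_tB (i : Fin 3) : rho (tB i) = PowerSeries.C (tau i) := by simp [rho, tB]

variable {R : Type} [CommRing R]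

/-- The span of the entries of `tau`. -/
noncomputable def Tau : Submodule ℚ PP := Submodule.span ℚ (Set.range tau)

lemma one_mem_Tau : (1 : PP) ∈ Tau := Submodule.subset_span ⟨2, rfl⟩

lemma coeff_mem [Algebra ℚ R] (K : Kos R) (θ : R →+* BB) (hx : ∀ i, θ (K.x i) = 0)
    (ha : ∀ i, θ (K.a i) = PowerSeries.X * tB i)
    (hb : ∀ i, θ (K.b i) = PowerSeries.C PowerSeries.X * tB i)
    (hD : ∀ r : R, ∃ (c : ℚ) (u v w : Fin 3 → R),
      r = algebraMap ℚ R c + K.x ⬝ᵥ u + K.a ⬝ᵥ v + K.b ⬝ᵥ w) (e : ℕ) :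
    ∀ (r : R) (e' : ℕ), e' ≤ e → PowerSeries.coeff e' (rho (θ r)) ∈ Tau ^ e := by
  have key : ∀ r : R, ∃ (c : ℚ) (v : Fin 3 → R), rho (θ r) =
      PowerSeries.C (algebraMap ℚ PP c) +
        PowerSeries.X * ∑ i, PowerSeries.C (tau i) * rho (θ (v i)) := by
    intro r
    obtain ⟨c, u, v, w, rfl⟩ := hD r
    refine ⟨c, v, ?_⟩
    have h1 : (rho.comp θ).comp (algebraMap ℚ R) = PowerSeries.C.comp (algebraMap ℚ PP) :=
      RingHom.ext_rat _ _
    have h2 : rho (θ (algebraMap ℚ R c)) = PowerSeries.C (algebraMap ℚ PP c) :=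
      congrArg (fun φ : ℚ →+* PowerSeries PP => φ c) h1
    simp only [map_add, h2, dotProduct, map_sum, map_mul, hx, ha, hb, rho_X, rho_CX, rho_tB,
      zero_mul, Finset.sum_const_zero, add_zero, Finset.mul_sum, mul_assoc]
  induction e with
  | zero =>
    intro r e' he'
    obtain rfl : e' = 0 := by omega
    obtain ⟨c, v, h⟩ := key r
    rw [h, pow_zero]
    simp only [map_add, PowerSeries.coeff_zero_C, PowerSeries.coeff_zero_X_mul, add_zero]
    exact Submodule.algebraMap_mem c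
  | succ e ih =>
    intro r e' he'
    rw [pow_succ']
    cases e' with
    | zero =>
      have := Submodule.mul_mem_mul one_mem_Tau (ih r 0 (Nat.zero_le _))
      rwa [one_mul] at this
    | succ e' =>
      obtain ⟨c, v, h⟩ := key r
      rw [h, map_add, PowerSeries.coeff_succ_X_mul, PowerSeries.coeff_C, if_neg (by omega),
        zero_add, map_sum]
      refine Submodule.sum_mem _ fun i _ => ?_
      rw [PowerSeries.coeff_C_mul]
      exact Submodule.mul_mem_mul (Submodule.subset_span ⟨i, rfl⟩) (ih _ _ (by omega))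

/-- The index sequence producing the monomial with exponents `i`, `j`. -/
def seqOf (i j : ℕ) (l : ℕ) : Fin 3 := if l < i then 0 else if l < i + j then 1 else 2

lemma prod_seqOf (i j n : ℕ) (h : i + j ≤ n) :
    ∏ l ∈ Finset.range n, tau (seqOf i j l) =
      MvPolynomial.monomial (Finsupp.single 0 i + Finsupp.single 1 j) 1 := by
  obtain ⟨k, rfl⟩ := Nat.exists_eq_add_of_le h
  rw [Finset.prod_range_add, Finset.prod_range_add]
  have h1 : ∏ l ∈ Finset.range i, tau (seqOf i j l) = MvPolynomial.X 0 ^ i := by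
    rw [Finset.prod_congr rfl (g := fun _ => MvPolynomial.X 0), Finset.prod_const,
      Finset.card_range]
    intro l hl
    rw [seqOf, if_pos (Finset.mem_range.1 hl)]
    rfl
  have h2 : ∏ l ∈ Finset.range j, tau (seqOf i j (i + l)) = MvPolynomial.X 1 ^ j := by
    rw [Finset.prod_congr rfl (g := fun _ => MvPolynomial.X 1), Finset.prod_const,
      Finset.card_range]
    intro l hl
    have := Finset.mem_range.1 hl
    rw [seqOf, if_neg (by omega), if_pos (by omega)]
    rfl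
  have h3 : ∏ l ∈ Finset.range k, tau (seqOf i j (i + j + l)) = 1 := by
    refine Finset.prod_eq_one fun l _ => ?_
    rw [seqOf, if_neg (by omega), if_neg (by omega)]
    rfl
  rw [h1, h2, h3, mul_one, MvPolynomial.X_pow_eq_monomial, MvPolynomial.X_pow_eq_monomial,
    MvPolynomial.monomial_mul, mul_one]

lemma count {σ : Type} (s : Finset σ) (g : Fin 3 → σ → PP) (h n : ℕ) (hn : 2 * h ≤ n)
    (H : ∀ ι : ℕ → Fin 3, ∃ q : Fin 3 → σ → PP, (∀ e u, q e u ∈ Tau ^ 2) ∧
      2 * ∏ l ∈ Finset.range n, tau (ι l) = ∑ u ∈ s, ∑ e, q e u * g e u) :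
    h * h ≤ 27 * s.card := by
  let fam : Fin 3 × Fin 3 × Fin 3 × s → PP :=
    fun z => tau z.1 * tau z.2.1 * g z.2.2.1 z.2.2.2
  let V : Submodule ℚ PP := Submodule.span ℚ (Set.range fam)
  have hV : Module.finrank ℚ V ≤ 27 * s.card := by
    refine (finrank_range_le_card fam).trans (le_of_eq ?_)
    simp
    ring
  have hfin : Module.Finite ℚ V := Module.Finite.span_of_finite ℚ (Set.finite_range _)
  have hmul : ∀ p ∈ Tau ^ 2, ∀ e, ∀ u ∈ s, p * g e u ∈ V := by
    intro p hp e u hu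
    rw [pow_two, Tau, Submodule.span_mul_span] at hp
    induction hp using Submodule.span_induction with
    | mem x hx =>
      obtain ⟨_, ⟨i, rfl⟩, _, ⟨j, rfl⟩, rfl⟩ := hx
      exact Submodule.subset_span ⟨(i, j, e, ⟨u, hu⟩), rfl⟩
    | zero => simp
    | add x y _ _ hx hy => rw [add_mul]; exact V.add_mem hx hy
    | smul c x _ hx => rw [smul_mul_assoc]; exact V.smul_mem c hx
  let ex : Fin h × Fin h → (Fin 2 →₀ ℕ) :=
    fun z => Finsupp.single 0 (z.1 : ℕ) + Finsupp.single 1 (z.2 : ℕ)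
  have hex : Function.Injective ex := by
    rintro ⟨i, j⟩ ⟨i', j'⟩ hij
    have h0 := DFunLike.congr_fun hij 0
    have h1 := DFunLike.congr_fun hij 1
    simp [ex] at h0 h1
    exact Prod.ext (Fin.ext h0) (Fin.ext h1)
  have hli := (MvPolynomial.basisMonomials (Fin 2) ℚ).linearIndependent.comp ex hex
  have hle : Submodule.span ℚ (Set.range (MvPolynomial.basisMonomials (Fin 2) ℚ ∘ ex)) ≤ V := by
    rw [Submodule.span_le]
    rintro _ ⟨⟨i, j⟩, rfl⟩
    obtain ⟨q, hq, hq'⟩ := H (seqOf i j)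
    rw [prod_seqOf _ _ _ (by have := i.2; have := j.2; omega)] at hq'
    have h1 : ∑ u ∈ s, ∑ e, q e u * g e u ∈ V :=
      V.sum_mem fun u hu => V.sum_mem fun e _ => hmul _ (hq e u) e u hu
    rw [← hq'] at h1
    have h2 := V.smul_mem (1 / 2 : ℚ) h1
    have h3 : (1 / 2 : ℚ) • (2 * MvPolynomial.monomial
        (Finsupp.single 0 (i : ℕ) + Finsupp.single 1 (j : ℕ)) (1 : ℚ) : PP) =
        MvPolynomial.monomial (Finsupp.single 0 (i : ℕ) + Finsupp.single 1 (j : ℕ)) 1 := by
      rw [two_mul, smul_add, ← add_smul]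
      norm_num
    rw [h3] at h2
    simpa [ex] using h2
  have := Submodule.finrank_mono hle
  rw [finrank_span_eq_card hli] at this
  simpa using this.trans hV

/-- The quadratic lower bound for the number of generators of `Tor(I, J)`. -/
theorem quad_le [Algebra ℚ R] (K : Kos R) (θ : R →+* BB) (hx : ∀ i, θ (K.x i) = 0)
    (ha : ∀ i, θ (K.a i) = PowerSeries.X * tB i)
    (hb : ∀ i, θ (K.b i) = PowerSeries.C PowerSeries.X * tB i)
    (hD : ∀ r : R, ∃ (c : ℚ) (u v w : Fin 3 → R),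
      r = algebraMap ℚ R c + K.x ⬝ᵥ u + K.a ⬝ᵥ v + K.b ⬝ᵥ w)
    (I J : Ideal R) (hIp : I ≤ K.p)
    (hI : ∀ k, K.a 2 * K.x k ∈ I) (hJp : J ≤ K.p) (hJ : ∀ r ∈ K.p, K.a 2 * r ∈ J) (h μ : ℕ)
    (hμ : Gen R (tor R (ModuleCat.of R I) (ModuleCat.of R J) (2 * (2 * h) + 1 + 1)) μ) :
    h * h ≤ 27 * μ := by
  let _ : Algebra R BB := θ.toAlgebra
  let T : Test K BB :=
    { s₁ := PowerSeries.X
      s₂ := PowerSeries.C PowerSeries.X
      t := tB
      t_two := by simp [tB, tau]
      prime := PowerSeries.X_prime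
      not_dvd := by
        rw [PowerSeries.X_dvd_iff, PowerSeries.constantCoeff_C]
        exact PowerSeries.X_ne_zero
      hx := hx
      ha := ha
      hb := hb }
  obtain ⟨σ, s, g, hs, H⟩ := lower_span T I J hIp hI hJp hJ (2 * h) μ hμ
  refine (count s (fun e u => PowerSeries.coeff (2 - (e : ℕ)) (rho (g u))) h (2 * h + 2)
    (by omega) fun ι => ?_).trans (Nat.mul_le_mul_left _ hs)
  obtain ⟨r, hr⟩ := H ι
  refine ⟨fun e u => PowerSeries.coeff (e : ℕ) (rho (θ (r u))),
    fun e u => coeff_mem K θ hx ha hb hD 2 _ _ (by have := e.2; omega), ?_⟩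
  have h1 := congrArg (fun z => PowerSeries.coeff 2 (rho z)) hr
  change PowerSeries.coeff 2 (rho (2 * PowerSeries.X ^ 2 * ∏ l ∈ Finset.range (2 * h + 2), tB (ι l)))
    = PowerSeries.coeff 2 (rho (∑ u ∈ s, θ (r u) * g u)) at h1
  simp only [map_mul, map_pow, map_prod, map_sum, rho_X, rho_tB, map_ofNat] at h1
  have h2 : (2 * PowerSeries.X ^ 2 * ∏ l ∈ Finset.range (2 * h + 2), PowerSeries.C (tau (ι l)) :
      PowerSeries PP) =
      PowerSeries.C (2 * ∏ l ∈ Finset.range (2 * h + 2), tau (ι l)) * PowerSeries.X ^ 2 := by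
    rw [map_mul, map_prod, map_ofNat]
    ring
  rw [h2, PowerSeries.coeff_C_mul, PowerSeries.coeff_X_pow_self, mul_one] at h1
  rw [h1]
  refine Finset.sum_congr rfl fun u _ => ?_
  rw [PowerSeries.coeff_mul, Finset.Nat.sum_antidiagonal_eq_sum_range_succ_mk,
    Finset.sum_range]

/-- The Tor complexity is at least three. -/
theorem three_le_tcx (M N : ModuleCat.{0} R)
    (H : ∀ h μ : ℕ, Gen R (tor R M N (2 * (2 * h) + 1 + 1)) μ → h * h ≤ 27 * μ) :
    3 ≤ tcx R M N := by
  refine le_iInf₂ fun d hd => ?_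
  by_contra hcon
  have hd2 : d ≤ 2 := by
    have : ¬ (3 ≤ d) := fun h3 => hcon (by exact_mod_cast h3)
    omega
  obtain ⟨a, ha, hev⟩ := hd
  obtain ⟨n₀, hn₀⟩ := Filter.eventually_atTop.1 hev
  obtain ⟨h, hh⟩ := exists_nat_gt (max (n₀ : ℝ) (max 1 (27 * a * 6)))
  have h1 : (n₀ : ℝ) < h := lt_of_le_of_lt (le_max_left _ _) hh
  have h2 : (1 : ℝ) < h := lt_of_le_of_lt ((le_max_left _ _).trans (le_max_right _ _)) hh
  have h3 : 27 * a * 6 < h := lt_of_le_of_lt ((le_max_right _ _).trans (le_max_right _ _)) hh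
  have h4 : n₀ < h := by exact_mod_cast h1
  obtain ⟨m, hm, hm'⟩ := hn₀ (2 * (2 * h) + 1 + 1) (by omega)
  have h5 := H h m (gen_of_mu_eq hm)
  have h6 : (h : ℝ) * h ≤ 27 * m := by exact_mod_cast h5
  have h7 : (((2 * (2 * h) + 1 + 1 : ℕ) : ℝ)) ^ ((d : ℤ) - 1) ≤
      (((2 * (2 * h) + 1 + 1 : ℕ) : ℝ)) ^ (1 : ℤ) :=
    zpow_le_zpow_right₀ (by exact_mod_cast (by omega : 1 ≤ 2 * (2 * h) + 1 + 1)) (by omega)
  rw [zpow_one] at h7
  have h8 : (m : ℝ) ≤ a * (6 * h) := by
    refine hm'.trans (mul_le_mul_of_nonneg_left (h7.trans ?_) ha.le)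
    push_cast
    linarith
  nlinarith

end Pool.Agent.Lib.MP_b9b9f8_al
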