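import Mathlib
import Pool.Agent.Lib.MP_b9b9f8_al.Tate

/-! Koszul homology of `x` over `Q / (a ⬝ x, b ⬝ x)` from regularity properties in `Q`. -/

namespace Pool.Agent.Lib.MP_b9b9f8_al

open Matrix

/-- Regularity properties of three vectors over a domain. -/
structure Amb (Q : Type) [CommRing Q] where
  x : Fin 3 → Q
  a : Fin 3 → Q
  b : Fin 3 → Q
  x0 : x 0 ≠ 0
  x1 : ∀ g h, x 1 * g = x 0 * h → ∃ r, g = x 0 * r
  x2 : ∀ g h h', x 2 * g = x 0 * h + x 1 * h' → ∃ r r', g = x 0 * r + x 1 * r'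
  f1 : a ⬝ᵥ x ≠ 0
  f2 : ∀ g h, (b ⬝ᵥ x) * g = (a ⬝ᵥ x) * h → ∃ r, g = (a ⬝ᵥ x) * r
  a0 : ∀ g y, a 0 * g = x ⬝ᵥ y → ∃ y', g = x ⬝ᵥ y'

namespace Amb

variable {Q : Type} [CommRing Q] [IsDomain Q] (A : Amb Q)

lemma k1 (v : Fin 3 → Q) (h : A.x ⬝ᵥ v = 0) : ∃ w, v = w ⨯₃ A.x := by
  simp only [dotProduct, Fin.sum_univ_three] at h
  obtain ⟨α, β, h2⟩ := A.x2 (v 2) (-v 0) (-v 1) (by linear_combination h)
  obtain ⟨γ, h1⟩ := A.x1 (v 1 + β * A.x 2) (-(v 0 + α * A.x 2)) (by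
    linear_combination h - A.x 2 * h2)
  have h0 : v 0 + α * A.x 2 = -(γ * A.x 1) := by
    apply mul_left_cancel₀ A.x0
    linear_combination h - A.x 2 * h2 - A.x 1 * h1
  refine ⟨![β, -α, γ], ?_⟩
  ext i
  fin_cases i
  · simp [cross_apply]; linear_combination h0
  · simp [cross_apply]; linear_combination h1
  · simp [cross_apply]; linear_combination h2

lemma k2 (w : Fin 3 → Q) (h : w ⨯₃ A.x = 0) : ∃ r : Q, w = r • A.x := by
  have h1 : w 2 * A.x 0 - w 0 * A.x 2 = 0 := by simpa [cross_apply] using congrFun h 1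
  have h2 : w 0 * A.x 1 - w 1 * A.x 0 = 0 := by simpa [cross_apply] using congrFun h 2
  obtain ⟨r, hr⟩ := A.x1 (w 0) (w 1) (by linear_combination h2)
  refine ⟨r, ?_⟩
  ext i
  fin_cases i
  · simp [hr, mul_comm]
  · apply mul_left_cancel₀ A.x0
    simp only [Fin.mk_one, Pi.smul_apply, smul_eq_mul]
    linear_combination -h2 + A.x 1 * hr
  · apply mul_left_cancel₀ A.x0
    simp only [Fin.reduceFinMk, Pi.smul_apply, smul_eq_mul]
    linear_combination h1 + A.x 2 * hr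

lemma k3 (r : Q) (h : r • A.x = 0) : r = 0 := by
  have h1 : r * A.x 0 = 0 := congrFun h 0
  exact (mul_eq_zero.1 h1).resolve_right A.x0

lemma syz (p p' : Q) (h : (A.a ⬝ᵥ A.x) * p + (A.b ⬝ᵥ A.x) * p' = 0) :
    ∃ g, p' = (A.a ⬝ᵥ A.x) * g ∧ p = -((A.b ⬝ᵥ A.x) * g) := by
  obtain ⟨g, hg⟩ := A.f2 p' (-p) (by linear_combination h)
  refine ⟨g, hg, ?_⟩
  apply mul_left_cancel₀ A.f1
  linear_combination h - (A.b ⬝ᵥ A.x) * hg

lemma syzv (p p' : Fin 3 → Q) (h : (A.a ⬝ᵥ A.x) • p + (A.b ⬝ᵥ A.x) • p' = 0) :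
    ∃ g : Fin 3 → Q, p' = (A.a ⬝ᵥ A.x) • g ∧ p = -((A.b ⬝ᵥ A.x) • g) := by
  choose g hg hg' using fun i => A.syz (p i) (p' i) (congrFun h i)
  exact ⟨g, funext hg, funext hg'⟩

omit [IsDomain Q] in
lemma ab_cross : (A.a ⨯₃ A.b) ⨯₃ A.x = (A.a ⬝ᵥ A.x) • A.b - (A.b ⬝ᵥ A.x) • A.a :=
  cross_cross_eq_smul_sub_smul _ _ _

lemma q1gen (v : Fin 3 → Q) (α β : Q) (h : A.x ⬝ᵥ v = (A.a ⬝ᵥ A.x) * α + (A.b ⬝ᵥ A.x) * β) :
    ∃ w, v = α • A.a + β • A.b + w ⨯₃ A.x := by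
  obtain ⟨w, hw⟩ := A.k1 (v - α • A.a - β • A.b) (by
    simp only [dotProduct_sub, dotProduct_smul, h, smul_eq_mul, dotProduct_comm A.x A.a,
      dotProduct_comm A.x A.b]
    ring)
  exact ⟨w, by rw [← hw]; abel⟩

lemma q1free (p p' : Q) (w u u' : Fin 3 → Q)
    (h : p • A.a + p' • A.b + w ⨯₃ A.x = (A.a ⬝ᵥ A.x) • u + (A.b ⬝ᵥ A.x) • u') :
    (∃ y, p = A.x ⬝ᵥ y) ∧ (∃ y, p' = A.x ⬝ᵥ y) := by
  have h1 := congrArg (fun v => A.x ⬝ᵥ v) h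
  simp only [dotProduct_add, dotProduct_smul, dot_cross_self, smul_eq_mul,
    dotProduct_comm A.x A.a, dotProduct_comm A.x A.b] at h1
  obtain ⟨g, hg, hg'⟩ := A.syz (p - A.x ⬝ᵥ u) (p' - A.x ⬝ᵥ u') (by linear_combination h1)
  refine ⟨⟨u - g • A.b, ?_⟩, ⟨u' + g • A.a, ?_⟩⟩
  · simp only [dotProduct_sub, dotProduct_smul, smul_eq_mul, dotProduct_comm A.x A.b]
    linear_combination hg'
  · simp only [dotProduct_add, dotProduct_smul, smul_eq_mul, dotProduct_comm A.x A.a]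
    linear_combination hg

lemma q2gen (w u u' : Fin 3 → Q) (h : w ⨯₃ A.x = (A.a ⬝ᵥ A.x) • u + (A.b ⬝ᵥ A.x) • u') :
    ∃ (g r : Q) (y y' : Fin 3 → Q),
      w = g • (A.a ⨯₃ A.b) + r • A.x + ((A.a ⬝ᵥ A.x) • y + (A.b ⬝ᵥ A.x) • y') := by
  have h1 := congrArg (fun v => A.x ⬝ᵥ v) h
  simp only [dotProduct_add, dotProduct_smul, dot_cross_self, smul_eq_mul] at h1
  obtain ⟨g, hg, hg'⟩ := A.syz (A.x ⬝ᵥ u) (A.x ⬝ᵥ u') h1.symm
  obtain ⟨y, hy⟩ := A.k1 (u + g • A.b) (by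
    simp only [dotProduct_add, dotProduct_smul, smul_eq_mul, dotProduct_comm A.x A.b]
    linear_combination hg')
  obtain ⟨y', hy'⟩ := A.k1 (u' - g • A.a) (by
    simp only [dotProduct_sub, dotProduct_smul, smul_eq_mul, dotProduct_comm A.x A.a]
    linear_combination hg)
  obtain ⟨r, hr⟩ := A.k2 (w + g • (A.a ⨯₃ A.b) - ((A.a ⬝ᵥ A.x) • y + (A.b ⬝ᵥ A.x) • y')) (by
    simp only [map_sub, map_add, map_smul, LinearMap.sub_apply, LinearMap.add_apply,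
      LinearMap.smul_apply, ← hy, ← hy', h, A.ab_cross]
    module)
  refine ⟨-g, r, y, y', ?_⟩
  rw [← hr]
  module

lemma q2free (u r : Q) (y y' : Fin 3 → Q)
    (h : u • (A.a ⨯₃ A.b) + r • A.x = (A.a ⬝ᵥ A.x) • y + (A.b ⬝ᵥ A.x) • y') :
    ∃ z, u = A.x ⬝ᵥ z := by
  have h1 := congrArg (fun v => v ⨯₃ A.x) h
  simp only [map_add, map_smul, LinearMap.add_apply, LinearMap.smul_apply, cross_self,
    A.ab_cross, smul_zero, add_zero] at h1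
  obtain ⟨g, hg, -⟩ := A.syzv (y ⨯₃ A.x - u • A.b) (y' ⨯₃ A.x + u • A.a) (by
    rw [smul_sub, smul_add, sub_add_eq_add_sub, ← add_assoc, ← h1]
    module)
  have h2 := congrFun hg 0
  simp only [Pi.add_apply, Pi.smul_apply, smul_eq_mul, cross_apply, cons_val_zero] at h2
  apply A.a0 u (g 0 • A.a + ![0, y' 2, -y' 1])
  simp only [dotProduct, Fin.sum_univ_three, Pi.add_apply, Pi.smul_apply, smul_eq_mul,
    cons_val_zero, cons_val_one, cons_val] at h2 ⊢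
  linear_combination h2

lemma q3 (r : Q) (y y' : Fin 3 → Q) (h : r • A.x = (A.a ⬝ᵥ A.x) • y + (A.b ⬝ᵥ A.x) • y') :
    ∃ α β, r = (A.a ⬝ᵥ A.x) * α + (A.b ⬝ᵥ A.x) * β := by
  have h1 := congrArg (fun v => v ⨯₃ A.x) h
  simp only [map_add, map_smul, LinearMap.add_apply, LinearMap.smul_apply, cross_self,
    smul_zero] at h1
  obtain ⟨g, hg, hg'⟩ := A.syzv _ _ h1.symm
  have h2 := congrArg (fun v => A.x ⬝ᵥ v) hg
  simp only [dot_cross_self, dotProduct_smul, smul_eq_mul] at h2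
  obtain ⟨k, rfl⟩ := A.k1 g ((mul_eq_zero.1 h2.symm).resolve_left A.f1)
  obtain ⟨ρ', hρ'⟩ := A.k2 (y' - (A.a ⬝ᵥ A.x) • k) (by
    simp only [map_sub, map_smul, LinearMap.sub_apply, LinearMap.smul_apply, hg, sub_self])
  obtain ⟨ρ, hρ⟩ := A.k2 (y + (A.b ⬝ᵥ A.x) • k) (by
    simp only [map_add, map_smul, LinearMap.add_apply, LinearMap.smul_apply, hg', neg_add_cancel])
  refine ⟨ρ, ρ', ?_⟩
  rw [← sub_eq_zero]
  apply A.k3
  rw [sub_smul, add_smul, mul_smul, mul_smul, ← hρ, ← hρ', h]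
  module

variable {R : Type} [CommRing R] (φ : Q →+* R)

omit [IsDomain Q] in
lemma map_dot (u v : Fin 3 → Q) : φ (u ⬝ᵥ v) = (φ ∘ u) ⬝ᵥ (φ ∘ v) := by
  simp [dotProduct]

omit [IsDomain Q] in
lemma map_cross (u v : Fin 3 → Q) : φ ∘ (u ⨯₃ v) = (φ ∘ u) ⨯₃ (φ ∘ v) := by
  ext i
  fin_cases i <;> simp [cross_apply]

omit [IsDomain Q] in
lemma map_vadd (u v : Fin 3 → Q) : φ ∘ (u + v) = φ ∘ u + φ ∘ v := by
  ext i; simp

omit [IsDomain Q] in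
lemma map_vsmul (c : Q) (v : Fin 3 → Q) : φ ∘ (c • v) = φ c • φ ∘ v := by
  ext i; simp

/-- The Koszul data over the quotient ring. -/
def toKos (hφ : Function.Surjective φ)
    (hker : ∀ q, φ q = 0 ↔ ∃ α β, q = (A.a ⬝ᵥ A.x) * α + (A.b ⬝ᵥ A.x) * β) : Kos R :=
  have ha : φ (A.a ⬝ᵥ A.x) = 0 := (hker _).2 ⟨1, 0, by ring⟩
  have hb : φ (A.b ⬝ᵥ A.x) = 0 := (hker _).2 ⟨0, 1, by ring⟩
  have hv : ∀ v : Fin 3 → R, ∃ v' : Fin 3 → Q, φ ∘ v' = v := fun v => by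
    choose v' hv' using fun i => hφ (v i)
    exact ⟨v', funext hv'⟩
  have hkv : ∀ v : Fin 3 → Q, φ ∘ v = 0 →
      ∃ u u' : Fin 3 → Q, v = (A.a ⬝ᵥ A.x) • u + (A.b ⬝ᵥ A.x) • u' := fun v h => by
    choose u u' hu using fun i => (hker (v i)).1 (congrFun h i)
    exact ⟨u, u', funext hu⟩
  { x := φ ∘ A.x
    a := φ ∘ A.a
    b := φ ∘ A.b
    hax := by rw [← map_dot, ha]
    hbx := by rw [← map_dot, hb]
    h1gen := fun v h => by
      obtain ⟨v, rfl⟩ := hv v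
      rw [← map_dot, hker] at h
      obtain ⟨α, β, h⟩ := h
      obtain ⟨w, hw⟩ := A.q1gen v α β h
      exact ⟨φ α, φ β, φ ∘ w, by
        rw [← map_cross, ← map_vsmul, ← map_vsmul, ← map_vadd, ← map_vadd, ← hw]⟩
    h1free := fun p p' w h => by
      obtain ⟨p, rfl⟩ := hφ p
      obtain ⟨p', rfl⟩ := hφ p'
      obtain ⟨w, rfl⟩ := hv w
      rw [← map_cross, ← map_vsmul, ← map_vsmul, ← map_vadd, ← map_vadd] at h
      obtain ⟨u, u', h⟩ := hkv _ h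
      obtain ⟨⟨y, rfl⟩, ⟨y', rfl⟩⟩ := A.q1free p p' w u u' h
      exact ⟨⟨φ ∘ y, map_dot φ _ _⟩, ⟨φ ∘ y', map_dot φ _ _⟩⟩
    h2gen := fun w h => by
      obtain ⟨w, rfl⟩ := hv w
      rw [← map_cross] at h
      obtain ⟨u, u', h⟩ := hkv _ h
      obtain ⟨g, r, y, y', rfl⟩ := A.q2gen w u u' h
      refine ⟨φ g, φ r, ?_⟩
      simp only [map_vadd, map_vsmul, map_cross, ha, hb, zero_smul, add_zero]
    h2free := fun u r h => by
      obtain ⟨u, rfl⟩ := hφ u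
      obtain ⟨r, rfl⟩ := hφ r
      rw [← map_cross, ← map_vsmul, ← map_vsmul, ← map_vadd] at h
      obtain ⟨y, y', h⟩ := hkv _ h
      obtain ⟨z, rfl⟩ := A.q2free u r y y' h
      exact ⟨φ ∘ z, map_dot φ _ _⟩
    h3 := fun r h => by
      obtain ⟨r, rfl⟩ := hφ r
      rw [← map_vsmul] at h
      obtain ⟨y, y', h⟩ := hkv _ h
      exact (hker r).2 (A.q3 r y y' h) }

end Amb

end Pool.Agent.Lib.MP_b9b9f8_al
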