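import Mathlib
import Pool.Agent.Lib.MP_b9b9f8_al.Count

/-! The counterexample, for an abstract ring with the required properties. -/

namespace Pool.Agent.Lib.MP_b9b9f8_al

open Matrix IsLocalRing

variable {R : Type} [CommRing R]

lemma exists_res (K : Kos R) (z : Fin 3 × Fin 3 → R) (hz0 : ∀ i, z (0, i) = K.x i)
    (hreg : ∀ (s : Set (Fin 3 × Fin 3)) (j : Fin 3 × Fin 3), (∀ i, (0, i) ∈ s) → j ∉ s →
      ∀ g, z j * g ∈ Ideal.span (z '' s) → g ∈ Ideal.span (z '' s))
    (t : Finset (Fin 3 × Fin 3)) :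
    ∀ J : Ideal R, J = Ideal.span (z '' ({j | j.1 = 0} ∪ (t : Set (Fin 3 × Fin 3)))) →
      ∃ (F : Res R (R ⧸ J)) (C : ℕ), ∀ n, Gen R (F.X n) (C * (n + 1)) := by
  classical
  induction t using Finset.induction_on with
  | empty =>
    intro J hJ
    have : J = K.p := by
      rw [hJ, Kos.p]
      congr 1
      ext r
      constructor
      · rintro ⟨⟨i, j⟩, hj, rfl⟩
        obtain rfl : i = 0 := by simpa using hj
        exact ⟨j, (hz0 j).symm⟩
      · rintro ⟨j, rfl⟩
        exact ⟨(0, j), by simp, hz0 j⟩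
    subst this
    exact ⟨K.resQuot, 4, K.resQuot_gen⟩
  | insert j t _ ih =>
    intro J hJ
    have hset : ({j | j.1 = 0} ∪ ((insert j t : Finset (Fin 3 × Fin 3)) : Set (Fin 3 × Fin 3))) =
        insert j ({j | j.1 = 0} ∪ (t : Set (Fin 3 × Fin 3))) := by
      rw [Finset.coe_insert, Set.union_insert]
    rw [hset] at hJ
    by_cases hj : j ∈ ({j | j.1 = 0} ∪ (t : Set (Fin 3 × Fin 3)))
    · rw [Set.insert_eq_of_mem hj] at hJ
      exact ih J hJ
    · obtain ⟨J₀, hJ₀⟩ : ∃ J₀ : Ideal R,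
        J₀ = Ideal.span (z '' ({j | j.1 = 0} ∪ (t : Set (Fin 3 × Fin 3)))) := ⟨_, rfl⟩
      obtain ⟨F, C, hF⟩ := ih J₀ hJ₀
      rw [Set.image_insert_eq] at hJ
      have hle : J₀ ≤ J := by
        rw [hJ, hJ₀]
        exact Ideal.span_mono (Set.subset_insert _ _)
      have hy : ∀ m : R ⧸ J₀, z j • m = 0 → m = 0 := by
        intro m hm
        obtain ⟨g, rfl⟩ := J₀.mkQ_surjective m
        rw [← map_smul, Submodule.mkQ_apply, Submodule.Quotient.mk_eq_zero, hJ₀] at hm
        rw [Submodule.mkQ_apply, Submodule.Quotient.mk_eq_zero, hJ₀]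
        exact hreg _ j (fun i => Or.inl rfl) hj g hm
      have hker : ∀ m : R ⧸ J₀, Submodule.factor hle m = 0 ↔ ∃ m', m = z j • m' := by
        intro m
        obtain ⟨g, rfl⟩ := J₀.mkQ_surjective m
        rw [Submodule.factor_mk, Submodule.mkQ_apply, Submodule.Quotient.mk_eq_zero, hJ,
          Ideal.mem_span_insert, ← hJ₀]
        constructor
        · rintro ⟨c, w, hw, rfl⟩
          refine ⟨J₀.mkQ c, ?_⟩
          rw [← map_smul, Submodule.mkQ_apply, Submodule.mkQ_apply, Submodule.Quotient.eq]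
          simpa [mul_comm] using hw
        · rintro ⟨m', hm'⟩
          obtain ⟨c, rfl⟩ := J₀.mkQ_surjective m'
          rw [← map_smul, Submodule.mkQ_apply, Submodule.mkQ_apply, Submodule.Quotient.eq] at hm'
          exact ⟨c, _, hm', by simp [mul_comm]⟩
      exact ⟨F.cone (z j) hy (Submodule.factor hle) (Submodule.factor_surjective hle) hker, 2 * C,
        F.cone_gen _ _ _ _ _ C hF⟩

theorem main_abstract [IsLocalRing R] [IsNoetherianRing R] [Algebra ℚ R]
    (K : Kos R) (θ : R →+* BB) (hx : ∀ i, θ (K.x i) = 0)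
    (ha : ∀ i, θ (K.a i) = PowerSeries.X * tB i)
    (hb : ∀ i, θ (K.b i) = PowerSeries.C PowerSeries.X * tB i)
    (hD : ∀ r : R, ∃ (c : ℚ) (u v w : Fin 3 → R),
      r = algebraMap ℚ R c + K.x ⬝ᵥ u + K.a ⬝ᵥ v + K.b ⬝ᵥ w)
    (z : Fin 3 × Fin 3 → R) (hz0 : ∀ i, z (0, i) = K.x i) (hz1 : ∀ i, z (1, i) = K.a i)
    (hz2 : ∀ i, z (2, i) = K.b i)
    (hreg : ∀ (s : Set (Fin 3 × Fin 3)) (j : Fin 3 × Fin 3), (∀ i, (0, i) ∈ s) → j ∉ s →
      ∀ g, z j * g ∈ Ideal.span (z '' s) → g ∈ Ideal.span (z '' s)) :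
    IsBurch (maximalIdeal R * K.p) ∧ (maximalIdeal R * K.p).radical ≠ maximalIdeal R ∧
      cxResidue R ≤ 2 ∧
      3 ≤ tcx R (ModuleCat.of R (maximalIdeal R * K.p : Ideal R))
        (ModuleCat.of R (maximalIdeal R * K.p : Ideal R)) := by
  let ev : R →+* PP := (PowerSeries.constantCoeff.comp PowerSeries.constantCoeff).comp θ
  have hm : ∀ r, ev r = 0 → r ∈ maximalIdeal R := fun r hr hu => by
    have := hu.map ev
    rw [hr] at this
    exact not_isUnit_zero this
  have hxm : ∀ i, K.x i ∈ maximalIdeal R := fun i => hm _ (by simp [ev, hx])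
  have ham : ∀ i, K.a i ∈ maximalIdeal R := fun i => hm _ (by simp [ev, ha])
  have hbm : ∀ i, K.b i ∈ maximalIdeal R := fun i => hm _ (by simp [ev, hb])
  have hdot : ∀ (J : Ideal R) (y u : Fin 3 → R), (∀ i, y i ∈ J) → y ⬝ᵥ u ∈ J :=
    fun J y u hy => J.sum_mem fun i _ => J.mul_mem_right _ (hy i)
  have hD' : ∀ r : R, ∃ c : ℚ, r - algebraMap ℚ R c ∈ maximalIdeal R := by
    intro r
    obtain ⟨c, u, v, w, rfl⟩ := hD r
    refine ⟨c, ?_⟩
    rw [add_assoc, add_assoc, add_sub_cancel_left]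
    exact add_mem (hdot _ _ _ hxm) (add_mem (hdot _ _ _ ham) (hdot _ _ _ hbm))
  have hxp : ∀ i, K.x i ∈ K.p := fun i => Ideal.subset_span ⟨i, rfl⟩
  refine ⟨?_, ?_, ?_, ?_⟩
  · intro h
    have h1 : K.p ≤ (maximalIdeal R * K.p).colon (maximalIdeal R : Set R) := by
      intro r hr
      rw [Submodule.mem_colon]
      intro s hs
      rw [smul_eq_mul, mul_comm r s]
      exact Ideal.mul_mem_mul hs hr
    have h2 : maximalIdeal R * K.p ≤ maximalIdeal R • (maximalIdeal R * K.p) := by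
      rw [smul_eq_mul, ← h]
      exact Ideal.mul_mono_right h1
    have h3 := Submodule.eq_bot_of_le_smul_of_le_jacobson_bot (maximalIdeal R) _
      (IsNoetherian.noetherian _) h2 (maximalIdeal_le_jacobson _)
    have h4 : ∀ i, K.x i = 0 := fun i => K.h3 _ (funext fun j => by
      have : K.x i * K.x j ∈ maximalIdeal R * K.p := Ideal.mul_mem_mul (hxm i) (hxp j)
      rw [h3] at this
      exact this)
    exact one_ne_zero (K.h3 1 (funext fun j => by simp [h4]))
  · intro h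
    have h1 : K.a 2 ∈ (maximalIdeal R * K.p).radical := by rw [h]; exact ham 2
    obtain ⟨n, hn⟩ := h1
    obtain ⟨y, hy⟩ := (K.mem_p _).1 (Ideal.mul_le_right hn)
    have h2 := congrArg θ hy
    simp [dotProduct, hx, ha, tB, tau] at h2
  · obtain ⟨F, C, hF⟩ := exists_res K z hz0 hreg Finset.univ (maximalIdeal R) (by
      rw [Finset.coe_univ, Set.union_univ]
      apply le_antisymm
      · intro r hr
        obtain ⟨c, u, v, w, rfl⟩ := hD r
        have hrest : ∀ J : Ideal R, (∀ j, z j ∈ J) → K.x ⬝ᵥ u + K.a ⬝ᵥ v + K.b ⬝ᵥ w ∈ J :=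
          fun J hJ => add_mem (add_mem (hdot _ _ _ fun i => hz0 i ▸ hJ _)
            (hdot _ _ _ fun i => hz1 i ▸ hJ _)) (hdot _ _ _ fun i => hz2 i ▸ hJ _)
        have hc : c = 0 := by
          by_contra hc
          have h1 : algebraMap ℚ R c ∈ maximalIdeal R := by
            have := sub_mem hr (add_mem (add_mem (hdot _ _ u hxm) (hdot _ _ v ham))
              (hdot _ _ w hbm))
            rwa [add_assoc, add_assoc, add_assoc, add_sub_cancel_right] at this
          exact h1 ((IsUnit.mk0 c hc).map _)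
        rw [hc, map_zero, zero_add]
        exact hrest _ fun j => Ideal.subset_span ⟨j, trivial, rfl⟩
      · rw [Ideal.span_le]
        rintro _ ⟨⟨i, j⟩, -, rfl⟩
        fin_cases i
        · exact hz0 j ▸ hxm j
        · exact hz1 j ▸ ham j
        · exact hz2 j ▸ hbm j)
    exact cxResidue_le_two hD' F C hF
  · exact three_le_tcx _ _ fun h μ hμ =>
      quad_le K θ hx ha hb hD _ _ Ideal.mul_le_right (fun k => Ideal.mul_mem_mul (ham 2) (hxp k))
        Ideal.mul_le_right (fun r hr => Ideal.mul_mem_mul (ham 2) hr) h μ hμ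

end Pool.Agent.Lib.MP_b9b9f8_al
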