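import Mathlib
import Pool.Agent.Lib.MP_b9b9f8_al.Main
import Pool.Agent.Lib.MP_b9b9f8_al.Lift

/-! The concrete ring: the localisation at the origin of
`ℚ[x₁, x₂, x₃, a₁, a₂, a₃, b₁, b₂, b₃] / (a ⬝ x, b ⬝ x)`. -/

namespace Pool.Agent.Lib.MP_b9b9f8_al

open Matrix IsLocalRing MvPolynomial

/-- The polynomial ring in nine variables. -/
abbrev SS : Type := MvPolynomial (Fin 3 × Fin 3) ℚ

/-- The maximal ideal of the origin. -/
noncomputable def m0 : Ideal SS := RingHom.ker (constantCoeff : SS →+* ℚ)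

instance m0_isMaximal : m0.IsMaximal :=
  RingHom.ker_isMaximal_of_surjective _ fun c => ⟨C c, by simp⟩

/-- The regular local ring. -/
abbrev QQ : Type := Localization.AtPrime m0

/-- The variables in the regular local ring. -/
noncomputable def zQ (j : Fin 3 × Fin 3) : QQ := algebraMap SS QQ (X j)

lemma algebraMap_inj : Function.Injective (algebraMap SS QQ) :=
  IsLocalization.injective QQ m0.primeCompl_le_nonZeroDivisors

lemma reg_loc (𝔞 : Ideal SS) (y : SS) (h : ∀ g, y * g ∈ 𝔞 → g ∈ 𝔞) (q : QQ)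
    (hq : algebraMap SS QQ y * q ∈ 𝔞.map (algebraMap SS QQ)) :
    q ∈ 𝔞.map (algebraMap SS QQ) := by
  obtain ⟨g, s, rfl⟩ := IsLocalization.exists_mk'_eq m0.primeCompl q
  have h1 : algebraMap SS QQ (y * g) ∈ 𝔞.map (algebraMap SS QQ) := by
    have := Ideal.mul_mem_right (algebraMap SS QQ s) _ hq
    rwa [mul_assoc, IsLocalization.mk'_spec, ← map_mul] at this
  rw [IsLocalization.algebraMap_mem_map_algebraMap_iff m0.primeCompl] at h1
  obtain ⟨t, ht, h1⟩ := h1
  rw [IsLocalization.mk'_mem_map_algebraMap_iff]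
  exact ⟨t, ht, h _ (by rwa [mul_left_comm])⟩

lemma reg_S (s : Set (Fin 3 × Fin 3)) (j : Fin 3 × Fin 3) (hj : j ∉ s) (g : SS)
    (h : X j * g ∈ Ideal.span (X '' s : Set SS)) : g ∈ Ideal.span (X '' s : Set SS) := by
  rw [mem_ideal_span_X_image] at h ⊢
  intro m hm
  obtain ⟨i, hi, hi'⟩ := h (Finsupp.single j 1 + m) (by
    rw [mem_support_iff, coeff_X_mul]
    exact mem_support_iff.1 hm)
  refine ⟨i, hi, ?_⟩
  have hij : j ≠ i := fun e => hj (e ▸ hi)
  simpa [Finsupp.single_apply, hij] using hi'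

lemma reg_Q (s : Set (Fin 3 × Fin 3)) (j : Fin 3 × Fin 3) (hj : j ∉ s) (q : QQ)
    (h : zQ j * q ∈ Ideal.span (zQ '' s)) : q ∈ Ideal.span (zQ '' s) := by
  have e : Ideal.span (zQ '' s) = (Ideal.span (X '' s : Set SS)).map (algebraMap SS QQ) := by
    rw [Ideal.map_span, Set.image_image]
    rfl
  rw [e] at h ⊢
  exact reg_loc _ _ (reg_S s j hj) q h

/-- The quadric `∑ y_i x_i` for the `k`-th group of variables. -/
noncomputable def fS (k : Fin 3) : SS := ∑ i : Fin 3, X (k, i) * X (0, i)

lemma fS_irreducible : Irreducible (fS 1) := by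
  have e : fS 1 = X (0, 0) * X (1, 0) + (X (1, 1) * X (0, 1) + X (1, 2) * X (0, 2)) := by
    rw [fS, Fin.sum_univ_three]
    ring
  rw [e]
  apply irreducible_mul_X_add
  · exact X_ne_zero _
  · rw [vars_X]; decide
  · intro h
    rcases Finset.mem_union.1 (vars_add_subset _ _ h) with h | h <;>
    · have := vars_mul _ _ h
      rw [vars_X, vars_X] at this
      revert this
      decide
  · rw [X_prime.irreducible.isRelPrime_iff_not_dvd]
    intro h
    have := map_dvd (eval fun j : Fin 3 × Fin 3 => if j = (0, 0) then (0 : ℚ) else 1) h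
    simp at this

lemma fS_not_dvd : ¬ fS 1 ∣ fS 2 := by
  intro h
  have := map_dvd (eval fun j : Fin 3 × Fin 3 => if j.1 = 1 then (0 : ℚ) else 1) h
  simp [fS] at this

lemma map_fS (k : Fin 3) :
    algebraMap SS QQ (fS k) = (fun i => zQ (k, i)) ⬝ᵥ fun i => zQ (0, i) := by
  simp [fS, zQ, dotProduct]

/-- The ambient data. -/
noncomputable def amb : Amb QQ where
  x i := zQ (0, i)
  a i := zQ (1, i)
  b i := zQ (2, i)
  x0 := by
    rw [zQ, ← map_zero (algebraMap SS QQ), Ne, algebraMap_inj.eq_iff]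
    exact X_ne_zero _
  x1 g h hg := by
    have := reg_Q {(0, 0)} (0, 1) (by decide) g (by
      rw [hg, Set.image_singleton]
      exact Ideal.mul_mem_right _ _ (Ideal.mem_span_singleton_self _))
    rw [Set.image_singleton, Ideal.mem_span_singleton] at this
    exact this
  x2 g h h' hg := by
    have := reg_Q {(0, 0), (0, 1)} (0, 2) (by decide) g (by
      rw [hg, Set.image_pair, Ideal.mem_span_pair]
      exact ⟨h, h', by ring⟩)
    rw [Set.image_pair, Ideal.mem_span_pair] at this
    obtain ⟨r, r', hr⟩ := this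
    exact ⟨r, r', by rw [← hr]; ring⟩
  f1 := by
    rw [← map_fS, ← map_zero (algebraMap SS QQ), Ne, algebraMap_inj.eq_iff]
    exact fS_irreducible.ne_zero
  f2 g h hg := by
    rw [← map_fS, ← map_fS] at hg
    rw [← map_fS]
    have := reg_loc (Ideal.span {fS 1}) (fS 2) (fun g hg => by
      rw [Ideal.mem_span_singleton] at hg ⊢
      exact (fS_irreducible.prime.dvd_or_dvd hg).resolve_left fS_not_dvd) g (by
        rw [hg, Ideal.map_span, Set.image_singleton]
        exact Ideal.mul_mem_right _ _ (Ideal.mem_span_singleton_self _))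
    rw [Ideal.map_span, Set.image_singleton, Ideal.mem_span_singleton] at this
    exact this
  a0 g y hg := by
    have e : zQ '' (Set.range fun i : Fin 3 => ((0 : Fin 3), i)) =
        Set.range fun i => zQ (0, i) := by
      rw [← Set.range_comp]
      rfl
    have := reg_Q (Set.range fun i : Fin 3 => ((0 : Fin 3), i)) (1, 0) (by simp) g (by
      rw [hg, e, Ideal.mem_span_range_iff_exists_fun]
      exact ⟨y, dotProduct_comm _ _⟩)
    rw [e, Ideal.mem_span_range_iff_exists_fun] at this
    obtain ⟨c, hc⟩ := this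
    exact ⟨c, hc.symm.trans (dotProduct_comm _ _)⟩

/-- The defining ideal. -/
noncomputable def fQ : Ideal QQ := Ideal.span {amb.a ⬝ᵥ amb.x, amb.b ⬝ᵥ amb.x}

/-- The ring of the counterexample. -/
abbrev RR : Type := QQ ⧸ fQ

/-- The Koszul data over the ring of the counterexample. -/
noncomputable def kos : Kos RR :=
  amb.toKos (Ideal.Quotient.mk fQ) Ideal.Quotient.mk_surjective fun q => by
    rw [Ideal.Quotient.eq_zero_iff_mem, fQ, Ideal.mem_span_pair]
    constructor
    · rintro ⟨α, β, h⟩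
      exact ⟨α, β, by rw [← h]; ring⟩
    · rintro ⟨α, β, h⟩
      exact ⟨α, β, by rw [h]; ring⟩

/-- The values of the variables in the test ring. -/
noncomputable def val (j : Fin 3 × Fin 3) : BB :=
  ![0, PowerSeries.X, PowerSeries.C PowerSeries.X] j.1 * tB j.2

/-- The test map on polynomials. -/
noncomputable def thS : SS →+* BB := eval₂Hom (algebraMap ℚ BB) val

lemma thS_X (j : Fin 3 × Fin 3) : thS (X j) = val j := eval₂Hom_X' _ _ j

lemma thS_unit (s : m0.primeCompl) : IsUnit (thS s) := by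
  have h : (PowerSeries.constantCoeff.comp PowerSeries.constantCoeff).comp thS =
      (algebraMap ℚ PP).comp constantCoeff := by
    apply ringHom_ext'
    · exact RingHom.ext_rat _ _
    · rintro ⟨i, j⟩
      fin_cases i <;> simp [thS_X, val]
  rw [PowerSeries.isUnit_iff_constantCoeff, PowerSeries.isUnit_iff_constantCoeff]
  have h1 : PowerSeries.constantCoeff (PowerSeries.constantCoeff (thS s)) =
      algebraMap ℚ PP (constantCoeff (s : SS)) := congrArg (fun φ : SS →+* PP => φ s) h
  rw [h1]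
  exact (IsUnit.mk0 _ s.2).map _

/-- The test map on the regular local ring. -/
noncomputable def thQ : QQ →+* BB := IsLocalization.lift (M := m0.primeCompl) thS_unit

lemma thQ_z (j : Fin 3 × Fin 3) : thQ (zQ j) = val j := by
  rw [thQ, zQ, IsLocalization.lift_eq, thS_X]

/-- The test map on the ring of the counterexample. -/
noncomputable def thR : RR →+* BB :=
  Ideal.Quotient.lift fQ thQ fun q hq => by
    rw [fQ, Ideal.mem_span_pair] at hq
    obtain ⟨α, β, rfl⟩ := hq
    simp [amb, dotProduct, thQ_z, val]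

instance : Nontrivial RR := thR.domain_nontrivial

instance : IsLocalRing RR :=
  IsLocalRing.of_surjective' (Ideal.Quotient.mk fQ) Ideal.Quotient.mk_surjective

lemma decompS (g : SS) (hg : constantCoeff g = 0) : ∃ c : Fin 3 × Fin 3 → SS,
    g = ∑ j, X j * c j := by
  have : g ∈ Ideal.span (X '' Set.univ : Set SS) := by
    rw [mem_ideal_span_X_image]
    intro m hm
    by_contra hcon
    have hm0 : m = 0 := by
      ext i
      by_contra hi
      exact hcon ⟨i, trivial, hi⟩
    rw [hm0, mem_support_iff] at hm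
    exact hm hg
  rw [Set.image_univ, Ideal.mem_span_range_iff_exists_fun] at this
  obtain ⟨c, hc⟩ := this
  exact ⟨c, by rw [← hc]; exact Finset.sum_congr rfl fun j _ => mul_comm _ _⟩

lemma decompQ (q : QQ) : ∃ (c : ℚ) (e : Fin 3 × Fin 3 → QQ),
    q = algebraMap ℚ QQ c + ∑ j, zQ j * e j := by
  obtain ⟨g, s, rfl⟩ := IsLocalization.exists_mk'_eq m0.primeCompl q
  have hs : constantCoeff (s : SS) ≠ 0 := s.2
  obtain ⟨e, he⟩ := decompS (g - C (constantCoeff g / constantCoeff (s : SS)) * (s : SS)) (by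
    simp [div_mul_cancel₀ _ hs])
  refine ⟨constantCoeff g / constantCoeff (s : SS), fun j => IsLocalization.mk' QQ (e j) s, ?_⟩
  have h1 := congrArg (algebraMap SS QQ) (sub_eq_iff_eq_add'.1 he)
  rw [map_add, map_mul, map_sum] at h1
  rw [IsLocalization.mk'_eq_iff_eq_mul, add_mul, Finset.sum_mul, h1]
  congr 1
  refine Finset.sum_congr rfl fun j _ => ?_
  rw [map_mul, mul_assoc, IsLocalization.mk'_spec]
  rfl

theorem counterexample : ∃ (R : Type) (_ : CommRing R) (_ : IsNoetherianRing R)
    (_ : IsLocalRing R) (I : Ideal R), IsBurch I ∧ I.radical ≠ maximalIdeal R ∧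
      cxResidue R ≤ 2 ∧ 3 ≤ tcx R (ModuleCat.of R I) (ModuleCat.of R I) := by
  refine ⟨RR, inferInstance, inferInstance, inferInstance, _, main_abstract kos thR (fun i => ?_) (fun i => ?_) (fun i => ?_) (fun r => ?_)
    (fun j => Ideal.Quotient.mk fQ (zQ j)) (fun _ => rfl) (fun _ => rfl) (fun _ => rfl) ?_⟩
  · exact (thQ_z (0, i)).trans (by simp [val])
  · exact (thQ_z (1, i)).trans (by simp [val])
  · exact (thQ_z (2, i)).trans (by simp [val])
  · obtain ⟨q, rfl⟩ := Ideal.Quotient.mk_surjective r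
    obtain ⟨c, e, rfl⟩ := decompQ q
    refine ⟨c, fun i => Ideal.Quotient.mk fQ (e (0, i)), fun i => Ideal.Quotient.mk fQ (e (1, i)),
      fun i => Ideal.Quotient.mk fQ (e (2, i)), ?_⟩
    rw [map_add, map_sum, Fintype.sum_prod_type, Fin.sum_univ_three, ← add_assoc, ← add_assoc]
    simp only [map_mul]
    rfl
  · intro s j hs hj g hg
    obtain ⟨g, rfl⟩ := Ideal.Quotient.mk_surjective g
    have e : Ideal.span ((fun j => Ideal.Quotient.mk fQ (zQ j)) '' s) =
        (Ideal.span (zQ '' s)).map (Ideal.Quotient.mk fQ) := by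
      rw [Ideal.map_span, Set.image_image]
    have hle : fQ ≤ Ideal.span (zQ '' s) := by
      have hx : ∀ (y : Fin 3 → QQ), y ⬝ᵥ amb.x ∈ Ideal.span (zQ '' s) := fun y =>
        Ideal.sum_mem _ fun i _ => Ideal.mul_mem_left _ _
          (Ideal.subset_span ⟨(0, i), hs i, rfl⟩)
      rw [fQ, Ideal.span_le]
      rintro _ (rfl | rfl)
      · exact hx _
      · exact hx _
    rw [e, ← map_mul, Ideal.mem_quotient_iff_mem hle] at hg
    rw [e, Ideal.mem_quotient_iff_mem hle]
    exact reg_Q s j hj g hg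

end Pool.Agent.Lib.MP_b9b9f8_al
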